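import Mathlib

/-!
# Smooth Riemannian metrics on the torus and isometric immersions into Euclidean 3-space
-/

set_option autoImplicit false

namespace Pool.Agent.Y501.C0

open scoped RealInnerProductSpace ContDiff

/-- A smooth Riemannian metric `E dx² + 2 F dx dy + G dy²` on the torus `ℝ² / ℤ²`: the coefficients
are smooth `ℤ²`-periodic functions on the plane and the form is positive definite. -/
structure TorusMetric where
  E : ℝ × ℝ → ℝ
  F : ℝ × ℝ → ℝ
  G : ℝ × ℝ → ℝ
  smooth : ContDiff ℝ ∞ E ∧ ContDiff ℝ ∞ F ∧ ContDiff ℝ ∞ G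
  periodic : ∀ (p : ℝ × ℝ) (m n : ℤ), E (p.1 + m, p.2 + n) = E p ∧ F (p.1 + m, p.2 + n) = F p ∧
    G (p.1 + m, p.2 + n) = G p
  posdef : ∀ p : ℝ × ℝ, 0 < E p ∧ 0 < E p * G p - F p ^ 2

/-- The inner product of the vectors `v`, `w` at the point `p`. -/
def TorusMetric.form (g : TorusMetric) (p v w : ℝ × ℝ) : ℝ :=
  g.E p * (v.1 * w.1) + g.F p * (v.1 * w.2 + v.2 * w.1) + g.G p * (v.2 * w.2)

/-- `‖g - g₀‖_{C⁰} < ε`: the supremum over the torus of the Hilbert-Schmidt norm of the tensor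
`g - g₀` with respect to `g₀` (computed in `g₀`-orthonormal frames `v, w`) is less than `ε`. -/
def C0Near (g₀ g : TorusMetric) (ε : ℝ) : Prop :=
  ∃ δ < ε, ∀ p v w : ℝ × ℝ, g₀.form p v v = 1 → g₀.form p w w = 1 → g₀.form p v w = 0 →
    √((g.form p v v - g₀.form p v v) ^ 2 + 2 * (g.form p v w - g₀.form p v w) ^ 2 +
      (g.form p w w - g₀.form p w w) ^ 2) ≤ δ

/-- `f` is a smooth isometric immersion of the torus with the metric `g` into Euclidean 3-space,
written as a `ℤ²`-periodic map of the plane. -/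
structure IsIsometricImmersion (g : TorusMetric) (f : ℝ × ℝ → EuclideanSpace ℝ (Fin 3)) :
    Prop where
  smooth : ContDiff ℝ ∞ f
  periodic : ∀ (p : ℝ × ℝ) (m n : ℤ), f (p.1 + m, p.2 + n) = f p
  isometric : ∀ p v w : ℝ × ℝ, ⟪fderiv ℝ f p v, fderiv ℝ f p w⟫ = g.form p v w

/-- `f` is a smooth isometric embedding: an isometric immersion which is injective on the torus. -/
structure IsIsometricEmbedding (g : TorusMetric) (f : ℝ × ℝ → EuclideanSpace ℝ (Fin 3)) :
    Prop extends IsIsometricImmersion g f where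
  injective : ∀ p q : ℝ × ℝ, f p = f q → ∃ m n : ℤ, q = (p.1 + m, p.2 + n)

end Pool.Agent.Y501.C0
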