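import Mathlib

/-!
# Directional derivatives, a linear differential inequality, and the kernel lines of a function
whose Hessian determinant vanishes
-/

set_option autoImplicit false

namespace Pool.Agent.Y501.C0

open Set Filter Topology
open scoped RealInnerProductSpace ContDiff

section Calculus

variable {V : Type*} [NormedAddCommGroup V] [NormedSpace ℝ V]
variable {F : Type*} [NormedAddCommGroup F] [NormedSpace ℝ F]

/-- directional derivative -/
noncomputable def dir (v : V) (f : V → F) (z : V) : F := fderiv ℝ f z v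

/-- second derivative -/
noncomputable def D2 (f : V → F) (z : V) : V →L[ℝ] V →L[ℝ] F := fderiv ℝ (fderiv ℝ f) z

lemma dir_smooth {f : V → F} (hf : ContDiff ℝ ∞ f) (v : V) : ContDiff ℝ ∞ (dir v f) := by
  unfold dir
  exact (hf.fderiv_right (by simp)).clm_apply contDiff_const

lemma smooth_diff {f : V → F} (hf : ContDiff ℝ ∞ f) (z : V) : DifferentiableAt ℝ f z :=
  (hf.differentiable (by simp)) z

lemma dir_dir {f : V → F} (hf : ContDiff ℝ ∞ f) (u v z : V) :
    dir u (dir v f) z = D2 f z u v := by
  have hd : DifferentiableAt ℝ (fderiv ℝ f) z :=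
    ((hf.fderiv_right (m := ∞) (by simp)).differentiable (by simp)) z
  unfold dir D2
  rw [fderiv_clm_apply hd (by fun_prop)]
  simp

lemma dir_comm {f : V → F} (hf : ContDiff ℝ ∞ f) (u v z : V) :
    dir u (dir v f) z = dir v (dir u f) z := by
  have hs : IsSymmSndFDerivAt ℝ f z :=
    (hf.contDiffAt).isSymmSndFDerivAt (by
      rw [minSmoothness_of_isRCLikeNormedField]
      exact WithTop.coe_le_coe.2 le_top)
  rw [dir_dir hf, dir_dir hf]
  exact hs _ _

lemma dir_comm' {f : V → F} (hf : ContDiff ℝ ∞ f) (u v : V) :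
    dir u (dir v f) = dir v (dir u f) := funext fun z => dir_comm hf u v z

lemma D2_symm {f : V → F} (hf : ContDiff ℝ ∞ f) (u v z : V) : D2 f z u v = D2 f z v u := by
  rw [← dir_dir hf, ← dir_dir hf, dir_comm hf]

lemma dir_congr {f g : V → F} {U : Set V} (hU : IsOpen U) (h : EqOn f g U) (v : V) :
    EqOn (dir v f) (dir v g) U := by
  intro z hz
  unfold dir
  rw [(h.eventuallyEq_of_mem (hU.mem_nhds hz)).fderiv_eq]

lemma hasDerivAt_line {f : V → F} {z k : V} {t : ℝ} (hf : DifferentiableAt ℝ f (z + t • k)) :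
    HasDerivAt (fun s : ℝ => f (z + s • k)) (dir k f (z + t • k)) t := by
  have h1 : HasDerivAt (fun s : ℝ => z + s • k) ((1 : ℝ) • k) t :=
    ((hasDerivAt_id t).smul_const k).const_add z
  have := hf.hasFDerivAt.comp_hasDerivAt t h1
  rw [one_smul] at this
  exact this

lemma dir_mul {g h : V → ℝ} {z : V} (hg : DifferentiableAt ℝ g z) (hh : DifferentiableAt ℝ h z)
    (v : V) : dir v (fun q => g q * h q) z = dir v g z * h z + g z * dir v h z := by
  unfold dir
  rw [fderiv_fun_mul hg hh]
  simp
  ring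

lemma dir_add {g h : V → ℝ} {z : V} (hg : DifferentiableAt ℝ g z) (hh : DifferentiableAt ℝ h z)
    (v : V) : dir v (fun q => g q + h q) z = dir v g z + dir v h z := by
  unfold dir
  rw [fderiv_fun_add hg hh]
  simp

lemma dir_const {F : Type*} [NormedAddCommGroup F] [NormedSpace ℝ F] (c : F) (v z : V) :
    dir v (fun _ => c) z = 0 := by
  simp [dir]

end Calculus

/-- a differential inequality forces a function with zero initial value to vanish -/
lemma lin_zero {y y' : ℝ → ℝ} {C T : ℝ} (hd : ∀ t ∈ Icc (0 : ℝ) T, HasDerivAt y (y' t) t)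
    (hb : ∀ t ∈ Icc (0 : ℝ) T, |y' t| ≤ C * |y t|) (h0 : y 0 = 0) :
    ∀ t ∈ Icc (0 : ℝ) T, y t = 0 := by
  intro t ht
  have := norm_le_gronwallBound_of_norm_deriv_right_le (f := y) (f' := y') (δ := 0) (K := C)
    (ε := 0) (a := 0) (b := T) (fun s hs => (hd s hs).continuousAt.continuousWithinAt)
    (fun s hs => (hd s ⟨hs.1, hs.2.le⟩).hasDerivWithinAt) (by simp [h0])
    (fun s hs => by simpa using hb s ⟨hs.1, hs.2.le⟩) t ht
  rw [gronwallBound_ε0_δ0] at this
  exact norm_le_zero_iff.1 this

/-- the same, backwards in time -/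
lemma lin_zero_back {y y' : ℝ → ℝ} {C T : ℝ} (hT : 0 ≤ T)
    (hd : ∀ t ∈ Icc (0 : ℝ) T, HasDerivAt y (y' t) t)
    (hb : ∀ t ∈ Icc (0 : ℝ) T, |y' t| ≤ C * |y t|) (h0 : y T = 0) : y 0 = 0 := by
  have h1 : ∀ t ∈ Icc (0 : ℝ) T, (fun s => y (T - s)) t = 0 := by
    refine lin_zero (y' := fun s => -y' (T - s)) (C := C) ?_ ?_ (by simpa using h0)
    · intro t ht
      have hmem : T - t ∈ Icc (0 : ℝ) T := ⟨by linarith [ht.2], by linarith [ht.1]⟩
      exact (hd _ hmem).comp_const_sub T t
    · intro t ht
      have hmem : T - t ∈ Icc (0 : ℝ) T := ⟨by linarith [ht.2], by linarith [ht.1]⟩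
      rw [abs_neg]
      exact hb _ hmem
  simpa using h1 T ⟨hT, le_rfl⟩

/-- **Kernel line lemma.** Let `u` be a smooth function whose Hessian determinant (in the directions
`k`, `w`) vanishes on the open set `D`.  If at `z0` the direction `k` is in the kernel and the second
derivative in the direction `w` is not zero, then this remains so along the segment from `z0` in the
direction `k` as long as it stays in `D`. -/
lemma hess_line {V : Type*} [NormedAddCommGroup V] [NormedSpace ℝ V] {u : V → ℝ}
    (hu : ContDiff ℝ ∞ u) {D : Set V} (hD : IsOpen D) (k w : V)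
    (hdet : ∀ z ∈ D, dir k (dir k u) z * dir w (dir w u) z = dir k (dir w u) z ^ 2)
    {z0 : V} {T : ℝ} (hT : 0 ≤ T) (hI : ∀ t ∈ Icc (0 : ℝ) T, z0 + t • k ∈ D)
    (hk : dir k (dir w u) z0 = 0) (hw : dir w (dir w u) z0 ≠ 0) :
    dir k (dir w u) (z0 + T • k) = 0 ∧ dir w (dir w u) (z0 + T • k) ≠ 0 := by
  obtain ⟨a, ha⟩ : ∃ a, a = dir k (dir k u) := ⟨_, rfl⟩
  obtain ⟨b, hb⟩ : ∃ b, b = dir k (dir w u) := ⟨_, rfl⟩
  obtain ⟨m, hm⟩ : ∃ m, m = dir w (dir w u) := ⟨_, rfl⟩
  rw [← ha, ← hb, ← hm] at hdet
  rw [← hb] at hk ⊢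
  rw [← hm] at hw ⊢
  have has : ContDiff ℝ ∞ a := by rw [ha]; exact dir_smooth (dir_smooth hu _) _
  have hbs : ContDiff ℝ ∞ b := by rw [hb]; exact dir_smooth (dir_smooth hu _) _
  have hms : ContDiff ℝ ∞ m := by rw [hm]; exact dir_smooth (dir_smooth hu _) _
  -- commutation relations
  have hkb : dir k b = dir w a := by
    rw [hb, ha, dir_comm' hu k w, dir_comm' (dir_smooth hu k) k w]
  have hkm : dir k m = dir w b := by
    rw [hm, hb, dir_comm' (dir_smooth hu w) k w]
  have hkwb : dir k (dir w b) = dir w (dir w a) := by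
    rw [dir_comm' hbs k w, hkb]
  -- first derivative of the determinant equation
  have e1 : ∀ z ∈ D, dir w a z * m z + a z * dir w m z = 2 * b z * dir w b z := by
    intro z hz
    have h1 : EqOn (fun q => a q * m q) (fun q => b q * b q) D := fun q hq => by
      have := hdet q hq
      simp only
      rw [this]; ring
    have h2 := dir_congr hD h1 w hz
    rw [dir_mul (smooth_diff has z) (smooth_diff hms z),
      dir_mul (smooth_diff hbs z) (smooth_diff hbs z)] at h2
    rw [h2]; ring
  -- second derivative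
  have e2 : ∀ z ∈ D, dir w (dir w a) z * m z + 2 * (dir w a z * dir w m z) +
      a z * dir w (dir w m) z = 2 * dir w b z ^ 2 + 2 * b z * dir w (dir w b) z := by
    intro z hz
    have h1 : EqOn (fun q => dir w a q * m q + a q * dir w m q)
        (fun q => (b q * dir w b q) + (b q * dir w b q)) D := fun q hq => by
      have := e1 q hq
      simp only
      rw [this]; ring
    have h2 := dir_congr hD h1 w hz
    have d1 := smooth_diff has z
    have d2 := smooth_diff hbs z
    have d3 := smooth_diff hms z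
    have d4 := smooth_diff (dir_smooth has w) z
    have d5 := smooth_diff (dir_smooth hbs w) z
    have d6 := smooth_diff (dir_smooth hms w) z
    rw [dir_add (g := fun q => dir w a q * m q) (h := fun q => a q * dir w m q)
      (d4.mul d3) (d1.mul d6), dir_add (g := fun q => b q * dir w b q)
      (h := fun q => b q * dir w b q) (d2.mul d5) (d2.mul d5), dir_mul d4 d3,
      dir_mul d1 d6, dir_mul d2 d5] at h2
    linear_combination h2
  have hmul : ∀ z ∈ D, a z * m z = b z ^ 2 := hdet
  -- functions along the line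
  have hline : ∀ {g : V → ℝ}, ContDiff ℝ ∞ g → ∀ t : ℝ,
      HasDerivAt (fun s : ℝ => g (z0 + s • k)) (dir k g (z0 + t • k)) t :=
    fun hg t => hasDerivAt_line (smooth_diff hg _)
  have hcont : ∀ {g : V → ℝ}, ContDiff ℝ ∞ g → Continuous (fun s : ℝ => g (z0 + s • k)) :=
    fun hg => hg.continuous.comp (by fun_prop)
  -- step 1
  have step1 : ∀ t ∈ Icc (0 : ℝ) T, (∀ s ∈ Icc (0 : ℝ) t, m (z0 + s • k) ≠ 0) →
      ∀ s ∈ Icc (0 : ℝ) t, b (z0 + s • k) = 0 := by
    intro t ht hne
    have hcc : ContinuousOn (fun s : ℝ => (2 * m (z0 + s • k) * dir w b (z0 + s • k)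
        - b (z0 + s • k) * dir w m (z0 + s • k)) / m (z0 + s • k) ^ 2) (Icc 0 t) := by
      have c1 := hms.continuous
      have c2 := hbs.continuous
      have c3 := (dir_smooth hbs w).continuous
      have c4 := (dir_smooth hms w).continuous
      refine ContinuousOn.div (by fun_prop) (by fun_prop) ?_
      intro s hs
      exact pow_ne_zero 2 (hne s hs)
    obtain ⟨C, hC⟩ := isCompact_Icc.exists_bound_of_continuousOn hcc
    refine lin_zero (y := fun s => b (z0 + s • k)) (y' := fun s => dir k b (z0 + s • k))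
      (C := C) (fun s _ => hline hbs s) ?_ (by simpa using hk)
    intro s hs
    have hsD : z0 + s • k ∈ D := hI s ⟨hs.1, hs.2.trans ht.2⟩
    have hm0 := hne s hs
    have h1 := e1 _ hsD
    have h2 := hmul _ hsD
    have h3 : dir k b (z0 + s • k) = ((2 * m (z0 + s • k) * dir w b (z0 + s • k)
        - b (z0 + s • k) * dir w m (z0 + s • k)) / m (z0 + s • k) ^ 2) * b (z0 + s • k) := by
      rw [hkb]
      field_simp
      linear_combination m (z0 + s • k) * h1 - dir w m (z0 + s • k) * h2
    rw [h3, abs_mul]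
    have := hC s hs
    rw [Real.norm_eq_abs] at this
    exact mul_le_mul_of_nonneg_right this (abs_nonneg _)
  -- step 2: `m` does not vanish
  have step2 : ∀ t ∈ Icc (0 : ℝ) T, m (z0 + t • k) ≠ 0 := by
    by_contra hcon
    push Not at hcon
    -- the first zero
    have hclosed : IsCompact {t ∈ Icc (0 : ℝ) T | m (z0 + t • k) = 0} := by
      have : {t ∈ Icc (0 : ℝ) T | m (z0 + t • k) = 0}
          = Icc 0 T ∩ (fun t : ℝ => m (z0 + t • k)) ⁻¹' {0} := by
        ext t; simp
      rw [this]
      exact isCompact_Icc.inter_right (isClosed_singleton.preimage (hcont hms))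
    obtain ⟨t1, ⟨ht1, hz1⟩, hmin⟩ := hclosed.exists_isLeast (by
      obtain ⟨t, ht, h⟩ := hcon
      exact ⟨t, ht, h⟩)
    have hne1 : ∀ s, 0 ≤ s → s < t1 → m (z0 + s • k) ≠ 0 := by
      intro s hs0 hs1 hs
      have := hmin ⟨⟨hs0, (hs1.le).trans ht1.2⟩, hs⟩
      linarith
    have ht1pos : 0 < t1 := by
      rcases eq_or_lt_of_le ht1.1 with h | h
      · exfalso
        rw [← h] at hz1
        exact hw (by simpa using hz1)
      · exact h
    have hb0 : ∀ s, 0 ≤ s → s < t1 → b (z0 + s • k) = 0 := by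
      intro s hs0 hs1
      exact step1 s ⟨hs0, hs1.le.trans ht1.2⟩ (fun r hr => hne1 r hr.1 (lt_of_le_of_lt hr.2 hs1))
        s ⟨hs0, le_rfl⟩
    -- the quotient m' / m^2 is constant
    have hF : ∀ s, 0 ≤ s → s < t1 → dir w b (z0 + s • k)
        = dir w b z0 / m z0 ^ 2 * m (z0 + s • k) ^ 2 := by
      intro s hs0 hs1
      have hder : ∀ r ∈ Icc (0 : ℝ) s, HasDerivAt
          (fun r : ℝ => dir w b (z0 + r • k) / m (z0 + r • k) ^ 2) 0 r := by
        intro r hr
        have hr1 : r < t1 := lt_of_le_of_lt hr.2 hs1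
        have hrD : z0 + r • k ∈ D := hI r ⟨hr.1, hr1.le.trans ht1.2⟩
        have hm0 := hne1 r hr.1 hr1
        have hbr := hb0 r hr.1 hr1
        have q1 := hline (dir_smooth hbs w) r
        have q2 := hline hms r
        have q3 := (q1.fun_div (q2.fun_pow 2) (pow_ne_zero 2 hm0))
        have f0 := hmul _ hrD
        have f1 := e1 _ hrD
        have f2 := e2 _ hrD
        rw [hbr] at f0 f1 f2
        have ha0 : a (z0 + r • k) = 0 := by
          have : a (z0 + r • k) * m (z0 + r • k) = 0 := by rw [f0]; ring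
          exact (mul_eq_zero.1 this).resolve_right hm0
        have hwa0 : dir w a (z0 + r • k) = 0 := by
          rw [ha0] at f1
          have : dir w a (z0 + r • k) * m (z0 + r • k) = 0 := by linarith
          exact (mul_eq_zero.1 this).resolve_right hm0
        rw [ha0, hwa0] at f2
        have f3 : dir w (dir w a) (z0 + r • k) * m (z0 + r • k)
            = 2 * dir w b (z0 + r • k) ^ 2 := by linarith
        refine q3.congr_deriv ?_
        rw [hkwb, hkm, div_eq_zero_iff]
        left
        simp only [Nat.cast_ofNat, Nat.add_one_sub_one, pow_one]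
        linear_combination m (z0 + r • k) * f3
      have hconst : (fun r : ℝ => dir w b (z0 + r • k) / m (z0 + r • k) ^ 2) s
          = (fun r : ℝ => dir w b (z0 + r • k) / m (z0 + r • k) ^ 2) 0 := by
        rcases eq_or_lt_of_le hs0 with h | h
        · rw [← h]
        refine (convex_Icc (0 : ℝ) s).is_const_of_fderivWithin_eq_zero (𝕜 := ℝ)
          (fun r hr => (hder r hr).differentiableAt.differentiableWithinAt) ?_
          ⟨hs0, le_rfl⟩ ⟨le_rfl, hs0⟩
        intro r hr
        have hu := (uniqueDiffOn_Icc h) r hr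
        have := (hder r hr).hasDerivWithinAt (s := Icc 0 s)
        have h2 := this.hasFDerivWithinAt.fderivWithin hu
        rw [h2]
        exact ContinuousLinearMap.ext fun v => by simp
      simp only [zero_smul, add_zero] at hconst
      have hm0 := hne1 s hs0 hs1
      rw [div_eq_iff (pow_ne_zero 2 hm0)] at hconst
      exact hconst
    set c : ℝ := dir w b z0 / m z0 ^ 2 with hc
    -- closure
    have hF' : ∀ s ∈ Icc (0 : ℝ) t1, dir w b (z0 + s • k) = c * m (z0 + s • k) ^ 2 := by
      intro s hs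
      have hcl : s ∈ closure (Ico (0 : ℝ) t1) := by
        rw [closure_Ico ht1pos.ne]; exact hs
      have hclosed2 : IsClosed {s : ℝ | dir w b (z0 + s • k) = c * m (z0 + s • k) ^ 2} :=
        isClosed_eq (hcont (dir_smooth hbs w)) (((hcont hms).pow 2).const_smul c)
      have hsub : Ico (0 : ℝ) t1 ⊆ {s : ℝ | dir w b (z0 + s • k) = c * m (z0 + s • k) ^ 2} :=
        fun s hs => hF s hs.1 hs.2
      exact (closure_minimal hsub hclosed2) hcl
    obtain ⟨B, hB⟩ := (isCompact_Icc (a := (0 : ℝ)) (b := t1)).exists_bound_of_continuousOn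
      (f := fun s : ℝ => c * m (z0 + s • k)) ((hcont hms).const_smul c).continuousOn
    have := lin_zero_back (y := fun s => m (z0 + s • k)) (y' := fun s => dir k m (z0 + s • k))
      (C := B) (T := t1) ht1.1 (fun s _ => hline hms s) (by
        intro s hs
        rw [hkm, hF' s hs]
        have h1 : c * m (z0 + s • k) ^ 2 = (c * m (z0 + s • k)) * m (z0 + s • k) := by ring
        rw [h1, abs_mul]
        have := hB s hs
        rw [Real.norm_eq_abs] at this
        exact mul_le_mul_of_nonneg_right this (abs_nonneg _)) hz1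
    exact hw (by simpa using this)
  exact ⟨step1 T ⟨hT, le_rfl⟩ (fun s hs => step2 s hs) T ⟨hT, le_rfl⟩, step2 T ⟨hT, le_rfl⟩⟩

end Pool.Agent.Y501.C0
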