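import Mathlib
import Pool.Agent.Y501.C0.Calc

/-!
# Smooth isometric immersions of flat plane domains into Euclidean 3-space: the rulings
-/

set_option autoImplicit false

namespace Pool.Agent.Y501.C0

open Set Filter Topology
open scoped RealInnerProductSpace ContDiff

abbrev E3 := EuclideanSpace ℝ (Fin 3)

/-- `f` is a smooth map of the plane which is isometric on the open set `D`. -/
structure Iso (f : ℂ → E3) (D : Set ℂ) : Prop where
  smooth : ContDiff ℝ ∞ f
  op : IsOpen D
  iso : ∀ z ∈ D, ∀ v : ℂ, ‖fderiv ℝ f z v‖ = ‖v‖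

lemma dir_inner {V : Type*} [NormedAddCommGroup V] [NormedSpace ℝ V] {f g : V → E3} {z : V}
    (hf : DifferentiableAt ℝ f z) (hg : DifferentiableAt ℝ g z) (v : V) :
    dir v (fun q => ⟪f q, g q⟫) z = ⟪dir v f z, g z⟫ + ⟪f z, dir v g z⟫ := by
  unfold dir
  rw [fderiv_inner_apply ℝ hf hg]
  ring

lemma dir_inner_const {V : Type*} [NormedAddCommGroup V] [NormedSpace ℝ V] {f : V → E3} {z : V}
    (hf : DifferentiableAt ℝ f z) (ν : E3) (v : V) :
    dir v (fun q => ⟪f q, ν⟫) z = ⟪dir v f z, ν⟫ := by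
  rw [dir_inner hf (differentiableAt_const ν)]
  simp [dir]

lemma inner3 (x y : E3) : ⟪x, y⟫ = x 0 * y 0 + x 1 * y 1 + x 2 * y 2 := by
  rw [PiLp.inner_apply, Fin.sum_univ_three]
  simp only [RCLike.inner_apply, conj_trivial]
  ring

lemma exists_normal {a b : E3} (ha : ⟪a, a⟫ = 1) (hb : ⟪b, b⟫ = 1) (hab : ⟪a, b⟫ = 0) :
    ∃ n : E3, ⟪n, n⟫ = 1 ∧ ∀ x : E3, ⟪x, a⟫ = 0 → ⟪x, b⟫ = 0 → x = ⟪x, n⟫ • n := by
  rw [inner3] at ha hb hab
  refine ⟨!₂[a 1 * b 2 - a 2 * b 1, a 2 * b 0 - a 0 * b 2, a 0 * b 1 - a 1 * b 0], ?_, ?_⟩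
  · rw [inner3]
    simp only [Matrix.cons_val_zero, Matrix.cons_val_one, Matrix.cons_val]
    linear_combination (b 0 * b 0 + b 1 * b 1 + b 2 * b 2) * ha + hb
      - (a 0 * b 0 + a 1 * b 1 + a 2 * b 2) * hab
  · intro x hxa hxb
    rw [inner3] at hxa hxb
    rw [inner3]
    ext i
    fin_cases i
    all_goals
      simp only [PiLp.smul_apply, smul_eq_mul, Fin.zero_eta, Fin.mk_one,
        Fin.reduceFinMk, Matrix.cons_val_zero, Matrix.cons_val_one, Matrix.cons_val]
    · linear_combination (-x 0 * (b 0 * b 0 + b 1 * b 1 + b 2 * b 2)) * ha - x 0 * hb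
        + x 0 * (a 0 * b 0 + a 1 * b 1 + a 2 * b 2) * hab
        + ((a 0 * b 1 - a 1 * b 0) * b 1 - (a 2 * b 0 - a 0 * b 2) * b 2) * hxa
        + ((a 2 * b 0 - a 0 * b 2) * a 2 - (a 0 * b 1 - a 1 * b 0) * a 1) * hxb
    · linear_combination (-x 1 * (b 0 * b 0 + b 1 * b 1 + b 2 * b 2)) * ha - x 1 * hb
        + x 1 * (a 0 * b 0 + a 1 * b 1 + a 2 * b 2) * hab
        + ((a 1 * b 2 - a 2 * b 1) * b 2 - (a 0 * b 1 - a 1 * b 0) * b 0) * hxa
        + ((a 0 * b 1 - a 1 * b 0) * a 0 - (a 1 * b 2 - a 2 * b 1) * a 2) * hxb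
    · linear_combination (-x 2 * (b 0 * b 0 + b 1 * b 1 + b 2 * b 2)) * ha - x 2 * hb
        + x 2 * (a 0 * b 0 + a 1 * b 1 + a 2 * b 2) * hab
        + ((a 2 * b 0 - a 0 * b 2) * b 0 - (a 1 * b 2 - a 2 * b 1) * b 1) * hxa
        + ((a 1 * b 2 - a 2 * b 1) * a 1 - (a 2 * b 0 - a 0 * b 2) * a 0) * hxb

namespace Iso

variable {f : ℂ → E3} {D : Set ℂ}

lemma dot (h : Iso f D) {z : ℂ} (hz : z ∈ D) (u v : ℂ) :
    ⟪dir u f z, dir v f z⟫ = ⟪u, v⟫ := by
  unfold dir
  rw [real_inner_eq_norm_add_mul_self_sub_norm_mul_self_sub_norm_mul_self_div_two,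
    real_inner_eq_norm_add_mul_self_sub_norm_mul_self_sub_norm_mul_self_div_two, ← map_add,
    h.iso z hz, h.iso z hz, h.iso z hz]

lemma da (h : Iso f D) (z v : ℂ) : DifferentiableAt ℝ (dir v f) z :=
  smooth_diff (dir_smooth h.smooth v) z

lemma dda (h : Iso f D) (z v w : ℂ) : DifferentiableAt ℝ (dir w (dir v f)) z :=
  smooth_diff (dir_smooth (dir_smooth h.smooth v) w) z

/-- the second derivatives are normal -/
lemma normal (h : Iso f D) {z : ℂ} (hz : z ∈ D) (u v w : ℂ) :
    ⟪dir u (dir v f) z, dir w f z⟫ = 0 := by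
  have key : ∀ u v w : ℂ, ⟪dir u (dir v f) z, dir w f z⟫ + ⟪dir u (dir w f) z, dir v f z⟫ = 0 := by
    intro u v w
    have h1 : EqOn (fun q => ⟪dir v f q, dir w f q⟫) (fun _ => ⟪v, w⟫) D :=
      fun q hq => h.dot hq v w
    have h2 := dir_congr h.op h1 u hz
    rw [dir_inner (h.da z v) (h.da z w), dir_const] at h2
    rw [real_inner_comm (dir v f z) (dir u (dir w f) z)]
    exact h2
  have hs : ∀ u v w : ℂ, ⟪dir u (dir v f) z, dir w f z⟫ = ⟪dir v (dir u f) z, dir w f z⟫ := by
    intro u v w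
    rw [dir_comm h.smooth u v]
  have a1 := key u v w
  have a2 := key v w u
  have a3 := key w u v
  rw [hs u w v] at a1
  rw [hs v u w] at a2
  rw [hs w v u] at a3
  linarith

/-- Gauss equation in vector form -/
lemma gauss (h : Iso f D) {z : ℂ} (hz : z ∈ D) (k u : ℂ) :
    ⟪dir k (dir k f) z, dir u (dir u f) z⟫ = ⟪dir k (dir u f) z, dir k (dir u f) z⟫ := by
  have h1 : EqOn (fun q => ⟪dir k (dir k f) q, dir u f q⟫) (fun _ => (0 : ℝ)) D :=
    fun q hq => h.normal hq k k u
  have h2 : EqOn (fun q => ⟪dir u (dir k f) q, dir u f q⟫) (fun _ => (0 : ℝ)) D :=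
    fun q hq => h.normal hq u k u
  have h3 := dir_congr h.op h1 u hz
  have h4 := dir_congr h.op h2 k hz
  rw [dir_inner (h.dda z k k) (h.da z u), dir_const] at h3
  rw [dir_inner (h.dda z k u) (h.da z u), dir_const] at h4
  rw [dir_comm (dir_smooth h.smooth k) u k] at h3
  rw [dir_comm h.smooth u k] at h4
  linarith

/-- all second derivatives at a point are multiples of one unit vector -/
lemma exists_n (h : Iso f D) {z : ℂ} (hz : z ∈ D) :
    ∃ n : E3, ⟪n, n⟫ = 1 ∧ ∀ u v : ℂ, dir u (dir v f) z = ⟪dir u (dir v f) z, n⟫ • n := by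
  obtain ⟨n, hn, hx⟩ := exists_normal (a := dir 1 f z) (b := dir Complex.I f z)
    (by rw [h.dot hz]; simp) (by rw [h.dot hz]; simp)
    (by rw [h.dot hz]; simp)
  exact ⟨n, hn, fun u v => hx _ (h.normal hz u v _) (h.normal hz u v _)⟩

lemma dir2_inner (h : Iso f D) (ν : E3) (z v w : ℂ) :
    dir w (dir v (fun q => ⟪f q, ν⟫)) z = ⟪dir w (dir v f) z, ν⟫ := by
  have h2 : dir v (fun q => ⟪f q, ν⟫) = (fun q => ⟪dir v f q, ν⟫) :=
    funext fun q => dir_inner_const (smooth_diff h.smooth q) ν v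
  rw [h2, dir_inner_const (h.da z v)]

lemma det_zero (h : Iso f D) (ν : E3) {z : ℂ} (hz : z ∈ D) (k u : ℂ) :
    dir k (dir k (fun q => ⟪f q, ν⟫)) z * dir u (dir u (fun q => ⟪f q, ν⟫)) z
      = dir k (dir u (fun q => ⟪f q, ν⟫)) z ^ 2 := by
  rw [h.dir2_inner, h.dir2_inner, h.dir2_inner]
  obtain ⟨n, hn, hall⟩ := h.exists_n hz
  have hg := h.gauss hz k u
  rw [hall k k, hall u u, hall k u] at hg ⊢
  simp only [inner_smul_left, inner_smul_right, hn, conj_trivial] at hg ⊢
  linear_combination ⟪n, ν⟫ ^ 2 * hg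

/-- a plane vector in coordinates -/
lemma cdec (a : ℂ) : a = a.re • (1 : ℂ) + a.im • Complex.I := by
  apply Complex.ext <;> simp

/-- existence of a unit kernel vector -/
lemma exists_ker (h : Iso f D) {z : ℂ} (hz : z ∈ D) :
    ∃ k : ℂ, ‖k‖ = 1 ∧ D2 f z k = 0 := by
  obtain ⟨n, hn, hall⟩ := h.exists_n hz
  have hg := h.gauss hz 1 Complex.I
  have e : ∀ u v : ℂ, D2 f z u v = ⟪D2 f z u v, n⟫ • n := by
    intro u v
    have := hall u v
    rwa [dir_dir h.smooth] at this
  rw [dir_dir h.smooth, dir_dir h.smooth, dir_dir h.smooth, e 1 1, e Complex.I Complex.I,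
    e 1 Complex.I] at hg
  simp only [inner_smul_left, inner_smul_right, hn, conj_trivial, mul_one] at hg
  set a := ⟪D2 f z 1 1, n⟫ with ha
  set b := ⟪D2 f z 1 Complex.I, n⟫ with hb
  set c := ⟪D2 f z Complex.I Complex.I, n⟫ with hc
  have e11 : D2 f z 1 1 = a • n := e 1 1
  have e1I : D2 f z 1 Complex.I = b • n := e 1 Complex.I
  have eI1 : D2 f z Complex.I 1 = b • n := by rw [D2_symm h.smooth, e1I]
  have eII : D2 f z Complex.I Complex.I = c • n := e Complex.I Complex.I
  have hzero : ∀ k : ℂ, D2 f z k 1 = 0 → D2 f z k Complex.I = 0 → D2 f z k = 0 := by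
    intro k h1 h2
    refine ContinuousLinearMap.ext fun v => ?_
    rw [cdec v, map_add, map_smul, map_smul, h1, h2]
    simp
  have hex : ∃ k : ℂ, k ≠ 0 ∧ D2 f z k = 0 := by
    by_cases ha0 : a = 0
    · refine ⟨1, one_ne_zero, hzero _ ?_ ?_⟩
      · rw [e11, ha0, zero_smul]
      · have : b = 0 := by
          rw [ha0] at hg
          have : b * b = 0 := by linarith
          exact mul_self_eq_zero.1 this
        rw [e1I, this, zero_smul]
    · refine ⟨b • (1 : ℂ) + (-a) • Complex.I, ?_, hzero _ ?_ ?_⟩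
      · intro h0
        have := congrArg Complex.im h0
        simp at this
        exact ha0 this
      · rw [map_add, map_smul, map_smul, add_apply,
          smul_apply, smul_apply, e11, eI1, smul_smul,
          smul_smul, ← add_smul]
        rw [show b * a + -a * b = 0 by ring, zero_smul]
      · rw [map_add, map_smul, map_smul, add_apply,
          smul_apply, smul_apply, e1I, eII, smul_smul,
          smul_smul, ← add_smul]
        rw [show b * b + -a * c = 0 by linarith, zero_smul]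
  obtain ⟨k, hk0, hk⟩ := hex
  have hn0 : ‖k‖ ≠ 0 := norm_ne_zero_iff.2 hk0
  refine ⟨(‖k‖⁻¹ : ℝ) • k, ?_, ?_⟩
  · rw [norm_smul, norm_inv, norm_norm, inv_mul_cancel₀ hn0]
  · rw [map_smul, hk, smul_zero]

/-- if two independent vectors are in the kernel, the second derivative vanishes -/
lemma D2_zero_of_two {z k l : ℂ} (hD : k.re * l.im - k.im * l.re ≠ 0) (hk : D2 f z k = 0)
    (hl : D2 f z l = 0) : D2 f z = 0 := by
  refine ContinuousLinearMap.ext fun a => ?_
  have : a = ((a.re * l.im - a.im * l.re) / (k.re * l.im - k.im * l.re)) • k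
      + ((k.re * a.im - k.im * a.re) / (k.re * l.im - k.im * l.re)) • l := by
    apply Complex.ext
    · simp only [Complex.add_re, Complex.real_smul, Complex.mul_re, Complex.ofReal_re,
        Complex.ofReal_im, zero_mul, sub_zero]
      rw [div_mul_eq_mul_div, div_mul_eq_mul_div, ← add_div, eq_div_iff hD]
      ring
    · simp only [Complex.add_im, Complex.real_smul, Complex.mul_im, Complex.ofReal_re,
        Complex.ofReal_im, zero_mul, add_zero]
      rw [div_mul_eq_mul_div, div_mul_eq_mul_div, ← add_div, eq_div_iff hD]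
      ring
  rw [this, map_add, map_smul, map_smul, hk, hl]
  simp

/-- **Rulings.** The kernel direction of the second derivative persists along the straight line in
this direction inside the domain. -/
lemma ker_line (h : Iso f D) {z0 k : ℂ} {T : ℝ} (hT : 0 ≤ T)
    (hI : ∀ t ∈ Icc (0 : ℝ) T, z0 + t • k ∈ D) (hkn : ‖k‖ = 1) (hk : D2 f z0 k = 0)
    (hne : D2 f z0 ≠ 0) : D2 f (z0 + T • k) k = 0 ∧ D2 f (z0 + T • k) ≠ 0 := by
  -- the orthogonal direction
  set w : ℂ := Complex.I * k with hw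
  have hk2 : k.re ^ 2 + k.im ^ 2 = 1 := by
    have := Complex.sq_norm k
    rw [hkn, Complex.normSq_apply] at this
    nlinarith
  have hwre : w.re = -k.im := by simp [hw]
  have hwim : w.im = k.re := by simp [hw]
  have hdetkw : k.re * w.im - k.im * w.re ≠ 0 := by
    rw [hwre, hwim]
    intro h0
    nlinarith
  have hz0 : z0 ∈ D := by simpa using hI 0 ⟨le_rfl, hT⟩
  have hww : D2 f z0 w w ≠ 0 := by
    intro h0
    apply hne
    apply D2_zero_of_two hdetkw hk
    refine ContinuousLinearMap.ext fun v => ?_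
    have hv : ∃ a b : ℝ, v = a • k + b • w := by
      refine ⟨v.re * k.re + v.im * k.im, -v.re * k.im + v.im * k.re, ?_⟩
      apply Complex.ext
      · simp only [Complex.add_re, Complex.real_smul, Complex.mul_re, Complex.ofReal_re,
          Complex.ofReal_im, zero_mul, sub_zero, hwre]
        linear_combination (-v.re) * hk2
      · simp only [Complex.add_im, Complex.real_smul, Complex.mul_im, Complex.ofReal_re,
          Complex.ofReal_im, zero_mul, add_zero, hwim]
        linear_combination (-v.im) * hk2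
    obtain ⟨a, b, rfl⟩ := hv
    rw [map_add, map_smul, map_smul, h0, D2_symm h.smooth w k, hk]
    simp
  set ν : E3 := D2 f z0 w w with hν
  have hu : ContDiff ℝ ∞ (fun q => ⟪f q, ν⟫) := h.smooth.inner ℝ contDiff_const
  obtain ⟨h1, h2⟩ := hess_line hu h.op k w (fun z hz => h.det_zero ν hz k w) hT hI
    (by rw [h.dir2_inner, dir_dir h.smooth, hk]; simp)
    (by
      rw [h.dir2_inner, dir_dir h.smooth, ← hν]
      exact fun h0 => hww (inner_self_eq_zero.1 h0))
  rw [h.dir2_inner] at h1 h2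
  have hzT : z0 + T • k ∈ D := hI T ⟨hT, le_rfl⟩
  obtain ⟨n, hn, hall⟩ := h.exists_n hzT
  have hww2 : dir w (dir w f) (z0 + T • k) ≠ 0 := by
    intro h0
    apply h2
    rw [h0, inner_zero_left]
  have hnν : ⟪n, ν⟫ ≠ 0 := by
    intro h0
    apply h2
    rw [hall w w, inner_smul_left, h0, mul_zero]
  have hkw : dir k (dir w f) (z0 + T • k) = 0 := by
    rw [hall k w, inner_smul_left] at h1
    simp only [conj_trivial] at h1
    rw [hall k w, (mul_eq_zero.1 h1).resolve_right hnν, zero_smul]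
  have hkk : dir k (dir k f) (z0 + T • k) = 0 := by
    have hg := h.gauss hzT k w
    rw [hkw, inner_zero_left] at hg
    rw [hall k k, hall w w] at hg
    simp only [inner_smul_left, inner_smul_right, hn, conj_trivial, mul_one] at hg
    rcases mul_eq_zero.1 hg with h0 | h0
    · exfalso
      apply hww2
      rw [hall w w, h0, zero_smul]
    · rw [hall k k, h0, zero_smul]
  rw [dir_dir h.smooth] at hkw hkk hww2
  refine ⟨?_, fun h0 => hww2 (by rw [h0]; rfl)⟩
  refine ContinuousLinearMap.ext fun v => ?_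
  have hv : ∃ a b : ℝ, v = a • k + b • w := by
    refine ⟨v.re * k.re + v.im * k.im, -v.re * k.im + v.im * k.re, ?_⟩
    apply Complex.ext
    · simp only [Complex.add_re, Complex.real_smul, Complex.mul_re, Complex.ofReal_re,
        Complex.ofReal_im, zero_mul, sub_zero, hwre]
      linear_combination (-v.re) * hk2
    · simp only [Complex.add_im, Complex.real_smul, Complex.mul_im, Complex.ofReal_re,
        Complex.ofReal_im, zero_mul, add_zero, hwim]
      linear_combination (-v.im) * hk2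
  obtain ⟨a, b, rfl⟩ := hv
  rw [map_add, map_smul, map_smul, hkk, hkw]
  simp

/-- the same in both directions -/
lemma ker_line' (h : Iso f D) (hD : Convex ℝ D) {z0 k : ℂ} {T : ℝ} (hz0 : z0 ∈ D)
    (hI : z0 + T • k ∈ D) (hkn : ‖k‖ = 1) (hk : D2 f z0 k = 0)
    (hne : D2 f z0 ≠ 0) : D2 f (z0 + T • k) k = 0 ∧ D2 f (z0 + T • k) ≠ 0 := by
  rcases le_total 0 T with hT | hT
  · refine h.ker_line hT ?_ hkn hk hne
    intro t ht
    rcases eq_or_lt_of_le hT with h0 | h0
    · have : t = 0 := le_antisymm (by rw [h0]; exact ht.2) ht.1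
      rw [this]
      simpa using hz0
    · have := hD.add_smul_sub_mem hz0 hI (t := t / T)
        ⟨div_nonneg ht.1 hT, (div_le_one h0).2 ht.2⟩
      rw [add_sub_cancel_left, smul_smul, div_mul_cancel₀ _ h0.ne'] at this
      exact this
  · have h2 := h.ker_line (z0 := z0) (k := -k) (T := -T) (by linarith) ?_ (by rwa [norm_neg])
      (by rw [map_neg, hk, neg_zero]) hne
    · rw [smul_neg, neg_smul, neg_neg] at h2
      refine ⟨?_, h2.2⟩
      have := h2.1
      rw [map_neg, neg_eq_zero] at this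
      exact this
    · intro t ht
      rcases eq_or_lt_of_le hT with h0 | h0
      · have : t = 0 := le_antisymm (by simpa [h0] using ht.2) ht.1
        rw [this]
        simpa using hz0
      · have := hD.add_smul_sub_mem hz0 hI (t := t / (-T))
          ⟨div_nonneg ht.1 (by linarith), (div_le_one (by linarith)).2 ht.2⟩
        rw [add_sub_cancel_left, smul_smul] at this
        rw [show t / -T * T = -t by
          have := h0.ne
          rw [div_neg, neg_mul, div_mul_cancel₀ _ this]] at this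
        rw [smul_neg, ← neg_smul]
        exact this

end Iso

end Pool.Agent.Y501.C0
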