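import Mathlib
import Pool.Agent.Y501.C0.Flat

/-!
# The local obstruction: a flat disc surrounded by a slightly faster medium
-/

set_option autoImplicit false

namespace Pool.Agent.Y501.C0

open Set Filter Topology Metric
open scoped RealInnerProductSpace ContDiff

/-- A map which is isometric on a convex open set and whose second derivative vanishes along a
segment preserves the distance of the end points. -/
lemma Iso.seg {f : ℂ → E3} {D : Set ℂ} (h : Iso f D) (hD : Convex ℝ D) {p q : ℂ} (hp : p ∈ D)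
    (hq : q ∈ D) (h2 : ∀ t ∈ Icc (0 : ℝ) 1, D2 f (p + t • (q - p)) (q - p) (q - p) = 0) :
    ‖f q - f p‖ = ‖q - p‖ := by
  set k := q - p with hk
  have hmem : ∀ t ∈ Icc (0 : ℝ) 1, p + t • k ∈ D := fun t ht => hD.add_smul_sub_mem hp hq ht
  have h1 : ∀ t ∈ Icc (0 : ℝ) 1, dir k f (p + t • k) = dir k f p := by
    intro t ht
    have := Convex.norm_image_sub_le_of_norm_hasDerivWithin_le (𝕜 := ℝ)
      (f := fun s : ℝ => dir k f (p + s • k))
      (f' := fun s : ℝ => dir k (dir k f) (p + s • k)) (C := 0) (s := Icc (0 : ℝ) 1)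
      (fun s _ => (hasDerivAt_line (h.da _ k)).hasDerivWithinAt) (fun s hs => by
        rw [dir_dir h.smooth, h2 s hs, norm_zero]) (convex_Icc 0 1) (left_mem_Icc.2 zero_le_one) ht
    rw [zero_mul] at this
    have := norm_le_zero_iff.1 this
    simp only [zero_smul, add_zero] at this
    exact sub_eq_zero.1 this
  have h3 := Convex.norm_image_sub_le_of_norm_hasDerivWithin_le (𝕜 := ℝ)
      (f := fun s : ℝ => f (p + s • k) - s • dir k f p)
      (f' := fun s : ℝ => dir k f (p + s • k) - (1 : ℝ) • dir k f p) (C := 0) (s := Icc (0 : ℝ) 1)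
      (x := 0) (y := 1)
      (fun s _ => ((hasDerivAt_line (smooth_diff h.smooth _)).sub
        ((hasDerivAt_id s).smul_const _)).hasDerivWithinAt) (fun s hs => by
        rw [h1 s hs, one_smul, sub_self, norm_zero]) (convex_Icc 0 1)
        (left_mem_Icc.2 zero_le_one) (right_mem_Icc.2 zero_le_one)
  rw [zero_mul] at h3
  have h4 := norm_le_zero_iff.1 h3
  simp only [zero_smul, add_zero, one_smul, sub_zero] at h4
  have h5 : f q - f p = dir k f p := by
    have : p + k = q := by rw [hk]; ring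
    rw [this] at h4
    rw [sub_eq_zero] at h4
    rw [← h4]
    abel
  rw [h5]
  exact h.iso p hp k

/-- a Lipschitz bound along a segment -/
lemma seg_le {f : ℂ → E3} (hf : ContDiff ℝ ∞ f) {C : ℝ} (hC : 0 ≤ C) {p q : ℂ}
    (h : ∀ t ∈ Icc (0 : ℝ) 1, ∀ v : ℂ, ‖fderiv ℝ f (p + t • (q - p)) v‖ ≤ C * ‖v‖) :
    ‖f q - f p‖ ≤ C * ‖q - p‖ := by
  refine Convex.norm_image_sub_le_of_norm_fderiv_le (𝕜 := ℝ) (s := segment ℝ p q)
    (fun x _ => smooth_diff hf x) ?_ (convex_segment p q) (left_mem_segment ℝ p q)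
    (right_mem_segment ℝ p q)
  intro x hx
  rw [segment_eq_image'] at hx
  obtain ⟨t, ht, rfl⟩ := hx
  exact ContinuousLinearMap.opNorm_le_bound _ hC (h t ht)

/-- The hypotheses of the local obstruction. -/
structure Med (ε : ℝ) (f : ℂ → E3) : Prop where
  pos : 0 < ε
  lt_one : ε < 1
  iso : Iso f (ball 0 1)
  le : ∀ z : ℂ, ‖z‖ < 2 → ∀ v : ℂ, ‖fderiv ℝ f z v‖ ≤ 1 * ‖v‖
  fast : ∀ z : ℂ, 1 + ε ^ 2 / 100 ≤ ‖z‖ → ‖z‖ < 2 → ∀ v : ℂ, ‖fderiv ℝ f z v‖ ≤ (1 - ε) * ‖v‖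

/-- the point with coordinates `(a, b)` in the frame `u, i u` -/
noncomputable def pt (u : ℂ) (a b : ℝ) : ℂ := ((a : ℂ) + b * Complex.I) * u

lemma norm_pt {u : ℂ} (hu : ‖u‖ = 1) (a b : ℝ) : ‖pt u a b‖ = √(a ^ 2 + b ^ 2) := by
  unfold pt
  rw [norm_mul, hu, mul_one, Complex.norm_add_mul_I]

lemma pt_sub (u : ℂ) (a b c d : ℝ) : pt u a b - pt u c d = pt u (a - c) (b - d) := by
  unfold pt
  push_cast
  ring

lemma pt_add_smul (u : ℂ) (a b c d t : ℝ) :
    pt u a b + t • pt u c d = pt u (a + t * c) (b + t * d) := by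
  unfold pt
  rw [Complex.real_smul]
  push_cast
  ring

/-- the shortcut through the fast medium -/
lemma Med.shortcut {ε : ℝ} {f : ℂ → E3} (h : Med ε f) {u : ℂ} (hu : ‖u‖ = 1) {R r c s q σ : ℝ}
    (hR : R = 1 + ε ^ 2 / 100) (hr0 : 0 ≤ r) (hr : r ≤ 1) (hc : 3 / 4 ≤ c) (hs : 0 ≤ s)
    (hcs : c ^ 2 + s ^ 2 = 1) (hcq : c * q = 1) (hσ : σ ^ 2 = 1) :
    ‖f (pt u (r * c) (σ * (r * s))) - f (pt u (R * q) 0)‖
      ≤ (R - r) + (1 - ε) * (R * (s * q)) := by
  have hε := h.pos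
  have hε1 := h.lt_one
  have hε2 : ε ^ 2 < 1 := by nlinarith
  have hR1 : 1 < R := by rw [hR]; linarith [sq_pos_of_pos hε]
  have hR2 : R ^ 2 < 9 / 8 := by
    have : R < 101 / 100 := by rw [hR]; linarith
    nlinarith
  have hfast : ∀ z : ℂ, R ≤ ‖z‖ → ‖z‖ < 2 → ∀ v : ℂ, ‖fderiv ℝ f z v‖ ≤ (1 - ε) * ‖v‖ := by
    rw [hR]; exact h.fast
  clear hR
  have hc0 : 0 < c := by linarith
  have hc1 : c ≤ 1 := by nlinarith [sq_nonneg s]
  have hq0 : 0 < q := by
    by_contra hcon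
    have : c * q ≤ 0 := mul_nonpos_of_nonneg_of_nonpos hc0.le (not_lt.1 hcon)
    linarith
  have hq1 : q ≤ 4 / 3 := by nlinarith
  -- first part: radial segment
  have h1 : ‖f (pt u (r * c) (σ * (r * s))) - f (pt u (R * c) (σ * (R * s)))‖
      ≤ 1 * ‖pt u (r * c) (σ * (r * s)) - pt u (R * c) (σ * (R * s))‖ := by
    refine seg_le h.iso.smooth zero_le_one fun t ht => h.le _ ?_
    rw [pt_sub, pt_add_smul, norm_pt hu]
    have e : (R * c + t * (r * c - R * c)) ^ 2 + (σ * (R * s) + t * (σ * (r * s) - σ * (R * s))) ^ 2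
        = (R + t * (r - R)) ^ 2 := by
      linear_combination (R + t * (r - R)) ^ 2 * hcs + (R + t * (r - R)) ^ 2 * s ^ 2 * hσ
    rw [e, Real.sqrt_sq_eq_abs, abs_lt]
    have hR3 : R < 2 := by nlinarith
    have h3 : 0 ≤ t * (R - r) := mul_nonneg ht.1 (by linarith)
    have h4 : t * (R - r) ≤ 1 * (R - r) := mul_le_mul_of_nonneg_right ht.2 (by linarith)
    constructor <;> linarith
  have h1' : ‖pt u (r * c) (σ * (r * s)) - pt u (R * c) (σ * (R * s))‖ = R - r := by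
    rw [pt_sub, norm_pt hu]
    have e : (r * c - R * c) ^ 2 + (σ * (r * s) - σ * (R * s)) ^ 2 = (R - r) ^ 2 := by
      linear_combination (R - r) ^ 2 * hcs + (R - r) ^ 2 * s ^ 2 * hσ
    rw [e, Real.sqrt_sq (by linarith)]
  -- second part: tangent segment
  have h2 : ‖f (pt u (R * c) (σ * (R * s))) - f (pt u (R * q) 0)‖
      ≤ (1 - ε) * ‖pt u (R * c) (σ * (R * s)) - pt u (R * q) 0‖ := by
    refine seg_le h.iso.smooth (by linarith) fun t ht => ?_
    have e : (R * q + t * (R * c - R * q)) ^ 2 + (0 + t * (σ * (R * s) - 0)) ^ 2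
        = R ^ 2 * (1 + ((1 - t) * (s * q)) ^ 2) := by
      linear_combination R ^ 2 * t ^ 2 * s ^ 2 * hσ + R ^ 2 * (t ^ 2 - q ^ 2 * (1 - t) ^ 2) * hcs
        + R ^ 2 * ((1 - t) ^ 2 * (c * q + 1) + 2 * t * (1 - t)) * hcq
    have hnorm : ‖pt u (R * q) 0 + t • (pt u (R * c) (σ * (R * s)) - pt u (R * q) 0)‖
        = √(R ^ 2 * (1 + ((1 - t) * (s * q)) ^ 2)) := by
      rw [pt_sub, pt_add_smul, norm_pt hu, e]
    have h5 : 0 < R ^ 2 := by positivity
    refine hfast _ ?_ ?_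
    · rw [hnorm]
      apply Real.le_sqrt_of_sq_le
      have : 0 ≤ R ^ 2 * ((1 - t) * (s * q)) ^ 2 := by positivity
      linarith
    · rw [hnorm, Real.sqrt_lt' (by norm_num)]
      have hsc : (s * q) ^ 2 ≤ 7 / 9 := by
        have hq2 : q ^ 2 ≤ 16 / 9 := by nlinarith
        have : (s * q) ^ 2 = q ^ 2 - 1 := by
          linear_combination q ^ 2 * hcs - (c * q + 1) * hcq
        linarith
      have ht2 : (1 - t) ^ 2 ≤ 1 := by nlinarith [ht.1, ht.2]
      have h3 : ((1 - t) * (s * q)) ^ 2 ≤ 7 / 9 := by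
        rw [mul_pow]
        calc (1 - t) ^ 2 * (s * q) ^ 2 ≤ 1 * (s * q) ^ 2 := by gcongr
          _ ≤ 7 / 9 := by linarith
      calc R ^ 2 * (1 + ((1 - t) * (s * q)) ^ 2) ≤ 9 / 8 * (1 + 7 / 9) := by gcongr
        _ < 2 ^ 2 := by norm_num
  have h2' : ‖pt u (R * c) (σ * (R * s)) - pt u (R * q) 0‖ = R * (s * q) := by
    rw [pt_sub, norm_pt hu]
    have e : (R * c - R * q) ^ 2 + (σ * (R * s) - 0) ^ 2 = (R * (s * q)) ^ 2 := by
      linear_combination R ^ 2 * s ^ 2 * hσ + R ^ 2 * (1 - q ^ 2) * hcs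
        + R ^ 2 * (c * q - 1) * hcq
    rw [e, Real.sqrt_sq (by positivity)]
  rw [h1', one_mul] at h1
  rw [h2'] at h2
  calc ‖f (pt u (r * c) (σ * (r * s))) - f (pt u (R * q) 0)‖
      ≤ ‖f (pt u (r * c) (σ * (r * s))) - f (pt u (R * c) (σ * (R * s)))‖
        + ‖f (pt u (R * c) (σ * (R * s))) - f (pt u (R * q) 0)‖ :=
        norm_sub_le_norm_sub_add_norm_sub _ _ _
    _ ≤ (R - r) + (1 - ε) * (R * (s * q)) := add_le_add h1 h2

/-- the two end points of a chord are close in the fast medium -/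
lemma Med.chord {ε : ℝ} {f : ℂ → E3} (h : Med ε f) {u : ℂ} (hu : ‖u‖ = 1) {R r c s q : ℝ}
    (hR : R = 1 + ε ^ 2 / 100) (hr0 : 0 ≤ r) (hr : r ≤ 1) (hc : 3 / 4 ≤ c) (hs : 0 ≤ s)
    (hcs : c ^ 2 + s ^ 2 = 1) (hcq : c * q = 1)
    (hiso : ‖f (pt u (r * c) (r * s)) - f (pt u (r * c) (-(r * s)))‖
      = ‖pt u (r * c) (r * s) - pt u (r * c) (-(r * s))‖) :
    r * s ≤ (R - r) + (1 - ε) * (R * (s * q)) := by
  have h1 := h.shortcut hu (σ := 1) hR hr0 hr hc hs hcs hcq (by norm_num)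
  have h2 := h.shortcut hu (σ := -1) hR hr0 hr hc hs hcs hcq (by norm_num)
  rw [one_mul] at h1
  rw [neg_one_mul] at h2
  have e : ‖pt u (r * c) (r * s) - pt u (r * c) (-(r * s))‖ = 2 * (r * s) := by
    rw [pt_sub, norm_pt hu]
    have : (r * c - r * c) ^ 2 + (r * s - -(r * s)) ^ 2 = (2 * (r * s)) ^ 2 := by ring
    rw [this, Real.sqrt_sq (by positivity)]
  rw [e] at hiso
  have h3 : ‖f (pt u (r * c) (r * s)) - f (pt u (r * c) (-(r * s)))‖
      ≤ ‖f (pt u (r * c) (r * s)) - f (pt u (R * q) 0)‖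
        + ‖f (pt u (R * q) 0) - f (pt u (r * c) (-(r * s)))‖ :=
    norm_sub_le_norm_sub_add_norm_sub _ _ _
  rw [norm_sub_rev (f (pt u (R * q) 0))] at h3
  linarith

end Pool.Agent.Y501.C0
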