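import Mathlib
import Pool.Agent.Y501.C0.Obs

/-!
# A flat disc surrounded by a slightly faster medium has no smooth isometric immersion
-/

set_option autoImplicit false

namespace Pool.Agent.Y501.C0

open Set Filter Topology Metric
open scoped RealInnerProductSpace ContDiff

lemma inner_re_im (z w : ℂ) : ⟪z, w⟫ = z.re * w.re + z.im * w.im := by
  rw [Complex.inner]
  simp
  ring

lemma unit_sq {u : ℂ} (hu : ‖u‖ = 1) : u.re ^ 2 + u.im ^ 2 = 1 := by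
  have := Complex.sq_norm u
  rw [hu, Complex.normSq_apply] at this
  linarith

/-- coordinates in the frame `u, i u` -/
lemma eq_pt {u : ℂ} (hu : ‖u‖ = 1) (z : ℂ) : z = pt u ⟪z, u⟫ ⟪z, Complex.I * u⟫ := by
  have h := unit_sq hu
  rw [inner_re_im, inner_re_im]
  unfold pt
  apply Complex.ext
  · simp
    linear_combination (-z.re) * h
  · simp
    linear_combination (-z.im) * h

lemma inner_pt {u : ℂ} (hu : ‖u‖ = 1) (a b : ℝ) : ⟪pt u a b, u⟫ = a := by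
  have h := unit_sq hu
  rw [inner_re_im]
  unfold pt
  simp
  linear_combination a * h

lemma pt_eq_add (u : ℂ) (a b c : ℝ) : pt u a b = pt u a c + (b - c) • (Complex.I * u) := by
  unfold pt
  rw [Complex.real_smul]
  push_cast
  ring

/-- `z` is a bent point with ruling normal `u` -/
structure Bent (f : ℂ → E3) (z u : ℂ) : Prop where
  ne : D2 f z ≠ 0
  unit : ‖u‖ = 1
  ker : D2 f z (Complex.I * u) = 0
  nonneg : 0 ≤ ⟪z, u⟫

lemma exists_bent {f : ℂ → E3} {D : Set ℂ} (h : Iso f D) {z : ℂ} (hz : z ∈ D)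
    (hne : D2 f z ≠ 0) : ∃ u, Bent f z u := by
  obtain ⟨k, hk1, hk⟩ := h.exists_ker hz
  rcases le_total 0 ⟪z, Complex.I * k⟫ with h0 | h0
  · refine ⟨Complex.I * k, hne, by rw [norm_mul, Complex.norm_I, one_mul, hk1], ?_, h0⟩
    rw [← mul_assoc, Complex.I_mul_I, neg_one_mul, map_neg, hk, neg_zero]
  · refine ⟨-(Complex.I * k), hne, by rw [norm_neg, norm_mul, Complex.norm_I, one_mul, hk1], ?_, ?_⟩
    · rw [mul_neg, ← mul_assoc, Complex.I_mul_I, neg_one_mul, neg_neg, hk]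
    · rw [inner_neg_right]
      linarith

/-- the ruling through a bent point -/
lemma Bent.line {f : ℂ → E3} {z u : ℂ} (hb : Bent f z u) (h : Iso f (ball 0 1)) (hz : ‖z‖ < 1)
    {b : ℝ} (hp : ‖pt u ⟪z, u⟫ b‖ < 1) :
    D2 f (pt u ⟪z, u⟫ b) (Complex.I * u) = 0 ∧ D2 f (pt u ⟪z, u⟫ b) ≠ 0 := by
  have e : pt u ⟪z, u⟫ b = z + (b - ⟪z, Complex.I * u⟫) • (Complex.I * u) := by
    rw [pt_eq_add u _ b ⟪z, Complex.I * u⟫, ← eq_pt hb.unit z]
  rw [e] at hp ⊢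
  exact h.ker_line' (convex_ball 0 1) (by rwa [mem_ball_zero_iff])
    (by rwa [mem_ball_zero_iff]) (by rw [norm_mul, Complex.norm_I, one_mul, hb.unit]) hb.ker hb.ne

/-- two rulings which meet have the same direction -/
lemma parallel {f : ℂ → E3} {p u v : ℂ} (hne : D2 f p ≠ 0)
    (h1 : D2 f p (Complex.I * u) = 0) (h2 : D2 f p (Complex.I * v) = 0) (hu : ‖u‖ = 1)
    (hv : ‖v‖ = 1) : u = v ∨ u = -v := by
  have hd : (Complex.I * u).re * (Complex.I * v).im - (Complex.I * u).im * (Complex.I * v).re = 0 := by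
    by_contra hcon
    exact hne (Iso.D2_zero_of_two hcon h1 h2)
  simp at hd
  have hu2 := unit_sq hu
  have hv2 := unit_sq hv
  -- u × v = 0
  have hx : u.re * v.im - u.im * v.re = 0 := by linarith
  -- let s = ⟨u, v⟩, then u = s v and s² = 1
  set s := u.re * v.re + u.im * v.im with hs
  have e1 : u.re = s * v.re := by
    rw [hs]
    linear_combination (-u.re) * hv2 + v.im * hx
  have e2 : u.im = s * v.im := by
    rw [hs]
    linear_combination (-u.im) * hv2 - v.re * hx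
  have hs2 : (s - 1) * (s + 1) = 0 := by
    have : s ^ 2 * (v.re ^ 2 + v.im ^ 2) = 1 := by
      rw [← hu2, e1, e2]; ring
    rw [hv2] at this
    linarith
  rcases mul_eq_zero.1 hs2 with h0 | h0
  · left
    have : s = 1 := by linarith
    apply Complex.ext
    · rw [e1, this, one_mul]
    · rw [e2, this, one_mul]
  · right
    have : s = -1 := by linarith
    apply Complex.ext
    · rw [e1, this]; simp
    · rw [e2, this]; simp

lemma chord_sub (u : ℂ) (a b : ℝ) : pt u a b - pt u a (-b) = (2 * b) • (Complex.I * u) := by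
  rw [pt_eq_add u a b (-b), add_sub_cancel_left]
  ring_nf

lemma chord_pt (u : ℂ) (a b t : ℝ) : pt u a (-b) + t • ((2 * b) • (Complex.I * u))
    = pt u a (-b + t * (2 * b)) := by
  rw [pt_eq_add u a (-b + t * (2 * b)) (-b), smul_smul]
  ring_nf

lemma chord_norm {u : ℂ} (hu : ‖u‖ = 1) {a b t : ℝ} (h : a ^ 2 + b ^ 2 < 1)
    (ht : t ∈ Icc (0 : ℝ) 1) : ‖pt u a (-b + t * (2 * b))‖ < 1 := by
  rw [norm_pt hu, Real.sqrt_lt' one_pos]
  have h1 : 0 ≤ t * (1 - t) := mul_nonneg ht.1 (by linarith [ht.2])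
  have h2 := mul_nonneg h1 (sq_nonneg b)
  have h3 : (-b + t * (2 * b)) ^ 2 = b ^ 2 - 4 * (t * (1 - t) * b ^ 2) := by ring
  rw [h3]
  linarith

/-- the map is isometric along the ruling through a bent point -/
lemma Bent.chord_iso {f : ℂ → E3} (h : Iso f (ball 0 1)) {z u : ℂ} (hb : Bent f z u)
    (hz : ‖z‖ < 1) {b : ℝ} (hab : ⟪z, u⟫ ^ 2 + b ^ 2 < 1) :
    ‖f (pt u ⟪z, u⟫ b) - f (pt u ⟪z, u⟫ (-b))‖ = ‖pt u ⟪z, u⟫ b - pt u ⟪z, u⟫ (-b)‖ := by
  have e0 : pt u ⟪z, u⟫ b = pt u ⟪z, u⟫ (-b + 1 * (2 * b)) := by ring_nf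
  have e1 : pt u ⟪z, u⟫ (-b) = pt u ⟪z, u⟫ (-b + 0 * (2 * b)) := by ring_nf
  refine h.seg (convex_ball 0 1) ?_ ?_ ?_
  · rw [mem_ball_zero_iff, e1]
    exact chord_norm hb.unit hab ⟨le_rfl, zero_le_one⟩
  · rw [mem_ball_zero_iff, e0]
    exact chord_norm hb.unit hab ⟨zero_le_one, le_rfl⟩
  · intro t ht
    have h1 := (hb.line h hz (chord_norm hb.unit hab ht)).1
    have h2 : D2 f (pt u ⟪z, u⟫ (-b + t * (2 * b))) ((2 * b) • (Complex.I * u)) = 0 := by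
      rw [ContinuousLinearMap.map_smul, h1, smul_zero]
    rw [chord_sub, chord_pt, h2]
    rfl

lemma le_of_sq_le_sq' {a b : ℝ} (h : a ^ 2 ≤ b ^ 2) (hb : 0 ≤ b) : a ≤ b :=
  (abs_le_of_sq_le_sq' h hb).2

/-- the excluded range of distances, numerically -/
lemma num1 {ε c s R r : ℝ} (hε : 0 < ε) (hε1 : ε < 1) (hR : R = 1 + ε ^ 2 / 100)
    (hr : r = 1 - ε ^ 2 / 100) (hcl : 1 - ε / 4 ≤ c) (hc1 : c < r) (hs0 : 0 ≤ s)
    (hcs : c ^ 2 + s ^ 2 = 1) : ¬ (r * s ≤ (R - r) + (1 - ε) * (R * (s * (1 / c)))) := by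
  intro key
  have hx : 0 < ε ^ 2 := by positivity
  have hx1 : ε ^ 2 ≤ ε := by nlinarith
  have hc0 : 0 < c := by linarith
  obtain ⟨x, hxd⟩ : ∃ x, x = ε ^ 2 / 100 := ⟨_, rfl⟩
  rw [← hxd] at hR hr
  have hx0 : 0 < x := by rw [hxd]; positivity
  have hxe : x ≤ ε / 100 := by rw [hxd]; linarith
  have hsl : ε / 10 ≤ s := by
    have h1 : c ^ 2 ≤ r ^ 2 := pow_le_pow_left₀ hc0.le hc1.le 2
    have h3 : x * x ≤ 1 * x := mul_le_mul_of_nonneg_right (by linarith) hx0.le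
    have h5 : (ε / 10) ^ 2 ≤ s ^ 2 := by
      have h4 : (ε / 10) ^ 2 = x := by rw [hxd]; ring
      have h6 : r ^ 2 = 1 - 2 * x + x * x := by rw [hr]; ring
      rw [h4]
      linarith
    exact le_of_sq_le_sq' h5 hs0
  have hq : (1 - ε) * R * (1 / c) ≤ 1 - ε / 2 := by
    rw [mul_one_div, div_le_iff₀ hc0, hR]
    have h1 : (1 - ε / 2) * (1 - ε / 4) ≤ (1 - ε / 2) * c :=
      mul_le_mul_of_nonneg_left hcl (by linarith)
    have h2 : 0 < ε * x := mul_pos hε hx0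
    nlinarith
  have h3 : (1 - ε) * (R * (s * (1 / c))) ≤ (1 - ε / 2) * s := by
    calc (1 - ε) * (R * (s * (1 / c))) = ((1 - ε) * R * (1 / c)) * s := by ring
      _ ≤ (1 - ε / 2) * s := mul_le_mul_of_nonneg_right hq hs0
  have h4 : r * s ≤ 2 * x + (1 - ε / 2) * s := by
    have : R - r = 2 * x := by rw [hR, hr]; ring
    linarith
  rw [hr] at h4
  have h5 : (ε / 2 - x) * s ≤ 2 * x := by linarith
  have h6 : (ε / 2 - ε / 100) * (ε / 10) ≤ (ε / 2 - x) * s :=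
    mul_le_mul (by linarith) hsl (by positivity) (by linarith)
  have h7 : (ε / 2 - ε / 100) * (ε / 10) = 49 / 10 * x := by rw [hxd]; ring
  linarith

/-- distances of rulings from the centre: the chords of intermediate distance are excluded -/
lemma Bent.dist_lt {ε : ℝ} {f : ℂ → E3} (h : Med ε f) {z u : ℂ} (hb : Bent f z u)
    (hz : ‖z‖ < (1 - ε ^ 2 / 100) ^ 2) : ⟪z, u⟫ < 1 - ε / 4 := by
  by_contra hcon
  push Not at hcon
  have hε := h.pos
  have hε1 := h.lt_one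
  have hε2 : ε ^ 2 ≤ ε := by nlinarith
  have hε2p : 0 < ε ^ 2 := by positivity
  have hdz : ⟪z, u⟫ ≤ ‖z‖ := by
    have := real_inner_le_norm z u
    rwa [hb.unit, mul_one] at this
  obtain ⟨r, hr⟩ : ∃ r, r = 1 - ε ^ 2 / 100 := ⟨_, rfl⟩
  have hr0 : 0 < r := by rw [hr]; linarith
  have hr1 : r < 1 := by rw [hr]; linarith
  rw [← hr] at hz
  have hrr : r ^ 2 < r := by nlinarith
  obtain ⟨c, hc⟩ : ∃ c, c = ⟪z, u⟫ / r := ⟨_, rfl⟩
  have hrc : r * c = ⟪z, u⟫ := by rw [hc]; field_simp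
  have hc1 : c < r := by
    have h1 : r * c < r * r := by rw [hrc, ← sq]; linarith
    exact lt_of_mul_lt_mul_left h1 hr0.le
  have hc0' : 0 ≤ c := by rw [hc]; exact div_nonneg (by linarith) hr0.le
  have hcl : 1 - ε / 4 ≤ c := by
    have : r * c ≤ 1 * c := mul_le_mul_of_nonneg_right hr1.le hc0'
    linarith
  obtain ⟨s, hs⟩ : ∃ s, s = √(1 - c ^ 2) := ⟨_, rfl⟩
  have hcs : c ^ 2 + s ^ 2 = 1 := by
    rw [hs, Real.sq_sqrt (by nlinarith)]
    ring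
  have hs0 : 0 ≤ s := by rw [hs]; exact Real.sqrt_nonneg _
  have hab : ⟪z, u⟫ ^ 2 + (r * s) ^ 2 < 1 := by
    rw [← hrc]
    have : (r * c) ^ 2 + (r * s) ^ 2 = r ^ 2 := by linear_combination r ^ 2 * hcs
    linarith
  have hiso := hb.chord_iso h.iso (by linarith) hab
  rw [← hrc] at hiso
  have hc0 : 0 < c := by linarith
  have key := h.chord hb.unit rfl hr0.le hr1.le (by linarith) hs0 hcs (q := 1 / c)
    (by field_simp) hiso
  exact num1 hε hε1 rfl hr hcl hc1 hs0 hcs key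

/-- The inner product with `v` of the points of a ruling with normal `±v` is constant. -/
lemma inner_pt_eq {u v : ℂ} (hu : ‖u‖ = 1) (huv : u = v ∨ u = -v) (a b c : ℝ) :
    ⟪pt u a b, v⟫ = ⟪pt u a c, v⟫ := by
  rcases huv with rfl | rfl
  · rw [inner_pt hu, inner_pt hu]
  · have h1 := inner_pt hu a b
    have h2 := inner_pt hu a c
    rw [inner_neg_right] at h1 h2
    linarith

/-- A bent point beyond a given ruling has the foot of its ruling beyond it as well. -/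
lemma Bent.beyond {f : ℂ → E3} (h : Iso f (ball 0 1)) {z u z1 u1 : ℂ} (hb : Bent f z u)
    (hz : ‖z‖ < 1) (hb1 : Bent f z1 u1) (hz1 : ‖z1‖ < 1) (hlt : ⟪z1, u1⟫ < ⟪z, u1⟫) :
    ⟪z1, u1⟫ < ⟪z, u⟫ * ⟪u, u1⟫ := by
  by_contra hcon
  push Not at hcon
  -- the foot point
  have hfoot : pt u ⟪z, u⟫ 0 = ⟪z, u⟫ • u := by
    unfold pt
    rw [Complex.real_smul]
    push_cast
    ring
  have hfi : ⟪pt u ⟪z, u⟫ 0, u1⟫ = ⟪z, u⟫ * ⟪u, u1⟫ := by
    rw [hfoot, real_inner_smul_left]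
  have hd1 : ⟪z, u⟫ ≤ ‖z‖ := by
    have := real_inner_le_norm z u
    rwa [hb.unit, mul_one] at this
  have hfn : ‖pt u ⟪z, u⟫ 0‖ < 1 := by
    rw [hfoot, norm_smul, hb.unit, mul_one, Real.norm_eq_abs, abs_of_nonneg hb.nonneg]
    linarith
  -- a point on the segment from `z` to the foot at the level of the ruling through `z1`
  obtain ⟨b, hb0, hbn, hbi⟩ : ∃ b : ℝ, True ∧ ‖pt u ⟪z, u⟫ b‖ < 1 ∧
      ⟪pt u ⟪z, u⟫ b, u1⟫ = ⟪z1, u1⟫ := by
    have hcont : ContinuousOn (fun t : ℝ => ⟪pt u ⟪z, u⟫ 0 + t • (z - pt u ⟪z, u⟫ 0), u1⟫)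
        (Icc 0 1) := by
      apply Continuous.continuousOn
      exact (continuous_const.add (continuous_id.smul continuous_const)).inner continuous_const
    have hiv := intermediate_value_Icc (zero_le_one' ℝ) hcont
    have hmem : ⟪z1, u1⟫ ∈ Icc ((fun t : ℝ => ⟪pt u ⟪z, u⟫ 0 + t • (z - pt u ⟪z, u⟫ 0), u1⟫) 0)
        ((fun t : ℝ => ⟪pt u ⟪z, u⟫ 0 + t • (z - pt u ⟪z, u⟫ 0), u1⟫) 1) := by
      simp only [zero_smul, add_zero, one_smul, add_sub_cancel]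
      exact ⟨by rw [hfi]; exact hcon, hlt.le⟩
    obtain ⟨t, ht, hte⟩ := hiv hmem
    simp only at hte
    have hpt : pt u ⟪z, u⟫ 0 + t • (z - pt u ⟪z, u⟫ 0) = pt u ⟪z, u⟫ (t * ⟪z, Complex.I * u⟫) := by
      have e : z - pt u ⟪z, u⟫ 0 = pt u 0 ⟪z, Complex.I * u⟫ := by
        have e2 := eq_pt hb.unit z
        have e3 := pt_sub u ⟪z, u⟫ ⟪z, Complex.I * u⟫ ⟪z, u⟫ 0
        rw [← e2, sub_self, sub_zero] at e3
        exact e3
      rw [e, pt_add_smul]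
      ring_nf
    refine ⟨t * ⟪z, Complex.I * u⟫, trivial, ?_, ?_⟩
    · rw [← hpt, ← mem_ball_zero_iff]
      exact (convex_ball (0 : ℂ) 1).add_smul_sub_mem (by rwa [mem_ball_zero_iff])
        (by rwa [mem_ball_zero_iff]) ht
    · rw [← hpt]
      exact hte
  set p := pt u ⟪z, u⟫ b with hp
  obtain ⟨k1, k2⟩ := hb.line h hz hbn
  have hp1 : p = pt u1 ⟪z1, u1⟫ ⟪p, Complex.I * u1⟫ := by
    rw [← hbi]
    exact eq_pt hb1.unit p
  have k3 : D2 f p (Complex.I * u1) = 0 := by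
    have hn : ‖pt u1 ⟪z1, u1⟫ ⟪p, Complex.I * u1⟫‖ < 1 := by rw [← hp1]; exact hbn
    have := (hb1.line h hz1 hn).1
    rwa [← hp1] at this
  have hpar := parallel k2 k1 k3 hb.unit hb1.unit
  have h1 : ⟪z, u1⟫ = ⟪z1, u1⟫ := by
    rw [← hbi, hp]
    conv_lhs => rw [eq_pt hb.unit z]
    exact inner_pt_eq hb.unit hpar _ _ _
  linarith

/-- There is a cap without bent points. -/
lemma exists_cap {ε : ℝ} {f : ℂ → E3} (h : Med ε f) : ∃ u : ℂ, ‖u‖ = 1 ∧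
    ∀ z : ℂ, ‖z‖ < (1 - ε ^ 2 / 100) ^ 2 → 1 - ε / 4 + ε / 16 < ⟪z, u⟫ → D2 f z = 0 := by
  have hε := h.pos
  have hε1 := h.lt_one
  obtain ⟨ρ, hρ⟩ : ∃ ρ, ρ = (1 - ε ^ 2 / 100) ^ 2 := ⟨_, rfl⟩
  have hρ1 : ρ < 1 := by
    have h1 : 0 < ε ^ 2 := by positivity
    have h2 : ε ^ 2 < 1 := by nlinarith
    rw [hρ]
    nlinarith
  rw [← hρ]
  by_cases hN : ∃ z u : ℂ, ‖z‖ < ρ ∧ Bent f z u
  swap
  · push Not at hN
    refine ⟨1, norm_one, fun z hz _ => ?_⟩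
    by_contra hne
    obtain ⟨u, hu⟩ := exists_bent h.iso (by rw [mem_ball_zero_iff]; linarith) hne
    exact hN z u hz hu
  obtain ⟨S, hS⟩ : ∃ S : Set ℝ, S = {d | ∃ z u : ℂ, ‖z‖ < ρ ∧ Bent f z u ∧ d = ⟪z, u⟫} := ⟨_, rfl⟩
  have hSne : S.Nonempty := by
    obtain ⟨z, u, hz, hu⟩ := hN
    exact ⟨⟪z, u⟫, by rw [hS]; exact ⟨z, u, hz, hu, rfl⟩⟩
  have hSb : ∀ d ∈ S, d ≤ 1 - ε / 4 := by
    intro d hd
    rw [hS] at hd
    obtain ⟨z, u, hz, hu, rfl⟩ := hd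
    exact (hu.dist_lt h (by rw [← hρ]; exact hz)).le
  have hbdd : BddAbove S := ⟨_, hSb⟩
  obtain ⟨τ, hτ⟩ : ∃ τ, τ = ε / 16 := ⟨_, rfl⟩
  have hτ0 : 0 < τ := by rw [hτ]; linarith
  have hτ1 : τ < 1 := by rw [hτ]; linarith
  -- an almost maximal element
  obtain ⟨d1, hd1, hd1'⟩ : ∃ d1 ∈ S, sSup S * (1 - τ ^ 2 / 2) ≤ d1 := by
    have h0 : 0 ≤ sSup S := by
      obtain ⟨d, hd⟩ := hSne
      have hd' := hd
      rw [hS] at hd'
      obtain ⟨z, u, hz, hu, rfl⟩ := hd'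
      exact hu.nonneg.trans (le_csSup hbdd hd)
    rcases eq_or_lt_of_le h0 with h1 | h1
    · obtain ⟨d, hd⟩ := hSne
      refine ⟨d, hd, ?_⟩
      rw [← h1, zero_mul]
      rw [hS] at hd
      obtain ⟨z, u, hz, hu, rfl⟩ := hd
      exact hu.nonneg
    · have h2 : sSup S * (1 - τ ^ 2 / 2) < sSup S := by
        have : 0 < sSup S * (τ ^ 2 / 2) := by positivity
        linarith
      obtain ⟨d, hd, hlt⟩ := exists_lt_of_lt_csSup hSne h2
      exact ⟨d, hd, hlt.le⟩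
  rw [hS] at hd1
  obtain ⟨z1, u1, hz1, hb1, rfl⟩ := hd1
  have hd1le : ⟪z1, u1⟫ ≤ 1 - ε / 4 := (hb1.dist_lt h (by rw [← hρ]; exact hz1)).le
  refine ⟨u1, hb1.unit, fun z hz hzu => ?_⟩
  by_contra hne
  obtain ⟨u, hu⟩ := exists_bent h.iso (by rw [mem_ball_zero_iff]; linarith) hne
  have hbey := hu.beyond h.iso (by linarith) hb1 (by linarith) (by linarith)
  have hdS : ⟪z, u⟫ ≤ sSup S := le_csSup hbdd (by rw [hS]; exact ⟨z, u, hz, hu, rfl⟩)
  have hd0 : 0 < ⟪z, u⟫ := by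
    rcases eq_or_lt_of_le hu.nonneg with h1 | h1
    · rw [← h1, zero_mul] at hbey
      have := hb1.nonneg
      linarith
    · exact h1
  have hcos : 1 - τ ^ 2 / 2 < ⟪u, u1⟫ := by
    have h1 : ⟪z, u⟫ * (1 - τ ^ 2 / 2) ≤ sSup S * (1 - τ ^ 2 / 2) := by
      refine mul_le_mul_of_nonneg_right hdS ?_
      nlinarith
    exact lt_of_mul_lt_mul_left (by linarith) hd0.le
  have hdiff : ‖u1 - u‖ < τ := by
    have h1 : ‖u1 - u‖ ^ 2 = 2 - 2 * ⟪u, u1⟫ := by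
      rw [norm_sub_sq_real, hu.unit, hb1.unit, real_inner_comm]
      ring
    have h2 : ‖u1 - u‖ ^ 2 < τ ^ 2 := by rw [h1]; linarith
    exact lt_of_pow_lt_pow_left₀ 2 hτ0.le h2
  have h3 : ⟪z, u1⟫ = ⟪z, u⟫ + ⟪z, u1 - u⟫ := by rw [inner_sub_right]; ring
  have h4 : ⟪z, u1 - u⟫ ≤ ‖z‖ * ‖u1 - u‖ := real_inner_le_norm _ _
  have h5 : ‖z‖ * ‖u1 - u‖ ≤ 1 * τ := mul_le_mul (by linarith) hdiff.le (norm_nonneg _) zero_le_one
  have h6 : ⟪z, u⟫ < 1 - ε / 4 := hu.dist_lt h (by rw [← hρ]; exact hz)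
  rw [← hτ] at hzu
  linarith

/-- the final inequality, numerically -/
lemma num2 {ε c s R r : ℝ} (hε : 0 < ε) (hε1 : ε < 1) (hR : R = 1 + ε ^ 2 / 100)
    (hr : r = 1 - ε ^ 2 / 32) (hs : s = ε / 8) (hc0 : 0 < c)
    (hcs : c ^ 2 + s ^ 2 = 1) : ¬ (r * s ≤ (R - r) + (1 - ε) * (R * (s * (1 / c)))) := by
  intro key
  have hx : 0 < ε ^ 2 := by positivity
  have hx1 : ε ^ 2 ≤ ε := by nlinarith
  have hs0 : 0 < s := by rw [hs]; linarith
  have hc1 : c ≤ 1 := by nlinarith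
  have hcl : 1 - ε / 64 ≤ c := by
    have h1 : c ^ 2 ≤ c := by nlinarith
    have h2 : s ^ 2 = ε ^ 2 / 64 := by rw [hs]; ring
    linarith
  have hq : (1 - ε) * R * (1 / c) ≤ 1 - ε / 2 := by
    rw [mul_one_div, div_le_iff₀ hc0, hR]
    have h1 : (1 - ε / 2) * (1 - ε / 64) ≤ (1 - ε / 2) * c :=
      mul_le_mul_of_nonneg_left hcl (by linarith)
    have h2 : 0 < ε * ε ^ 2 := by positivity
    nlinarith
  have h3 : (1 - ε) * (R * (s * (1 / c))) ≤ (1 - ε / 2) * s := by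
    calc (1 - ε) * (R * (s * (1 / c))) = ((1 - ε) * R * (1 / c)) * s := by ring
      _ ≤ (1 - ε / 2) * s := mul_le_mul_of_nonneg_right hq hs0.le
  have h4 : r * s ≤ (R - r) + (1 - ε / 2) * s := by linarith
  have h5 : (ε / 2 - ε ^ 2 / 32) * s ≤ ε ^ 2 / 100 + ε ^ 2 / 32 := by
    rw [hr, hR] at h4
    linarith
  have h6 : (ε / 2 - ε / 32) * (ε / 8) ≤ (ε / 2 - ε ^ 2 / 32) * s := by
    rw [hs]
    exact mul_le_mul_of_nonneg_right (by linarith) (by linarith)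
  nlinarith

/-- **Local obstruction.** A flat disc surrounded by a slightly faster medium has no smooth
isometric immersion into Euclidean 3-space. -/
theorem no_med {ε : ℝ} {f : ℂ → E3} (h : Med ε f) : False := by
  have hε := h.pos
  have hε1 := h.lt_one
  have hx : 0 < ε ^ 2 := by positivity
  have hx1 : ε ^ 2 ≤ ε := by nlinarith
  obtain ⟨u, hu, hcap⟩ := exists_cap h
  obtain ⟨r, hr⟩ : ∃ r, r = 1 - ε ^ 2 / 32 := ⟨_, rfl⟩
  obtain ⟨s, hs⟩ : ∃ s, s = ε / 8 := ⟨_, rfl⟩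
  have hs2 : s ^ 2 = ε ^ 2 / 64 := by rw [hs]; ring
  obtain ⟨c, hc⟩ : ∃ c, c = √(1 - s ^ 2) := ⟨_, rfl⟩
  have hs0 : 0 ≤ s := by rw [hs]; linarith
  have hcs : c ^ 2 + s ^ 2 = 1 := by
    rw [hc, Real.sq_sqrt (by linarith)]
    ring
  have hc0 : 0 < c := by
    rw [hc]
    exact Real.sqrt_pos.2 (by linarith)
  have hc1 : c ≤ 1 := by nlinarith
  have hcl : 1 - ε ^ 2 / 64 ≤ c := by
    have h1 : c ^ 2 ≤ c := by nlinarith
    linarith
  have hr0 : 0 < r := by rw [hr]; linarith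
  have hr1 : r < 1 := by rw [hr]; linarith
  have hrρ : r < (1 - ε ^ 2 / 100) ^ 2 := by
    rw [hr]
    nlinarith
  -- points of the chord
  have hpt : ∀ t ∈ Icc (0 : ℝ) 1, ‖pt u (r * c) (-(r * s) + t * (2 * (r * s)))‖ ≤ r := by
    intro t ht
    rw [norm_pt hu, Real.sqrt_le_left hr0.le]
    have h1 : 0 ≤ t * (1 - t) := mul_nonneg ht.1 (by linarith [ht.2])
    have h2 := mul_nonneg h1 (sq_nonneg (r * s))
    have h3 : (-(r * s) + t * (2 * (r * s))) ^ 2 = (r * s) ^ 2 - 4 * (t * (1 - t) * (r * s) ^ 2) := by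
      ring
    have h4 : (r * c) ^ 2 + (r * s) ^ 2 = r ^ 2 := by linear_combination r ^ 2 * hcs
    rw [h3]
    linarith
  have hlev : 1 - ε / 4 + ε / 16 < r * c := by
    have h1 : (1 - ε ^ 2 / 32) * (1 - ε ^ 2 / 64) ≤ r * c := by
      rw [hr]
      exact mul_le_mul_of_nonneg_left hcl (by linarith)
    nlinarith
  have hiso : ‖f (pt u (r * c) (r * s)) - f (pt u (r * c) (-(r * s)))‖
      = ‖pt u (r * c) (r * s) - pt u (r * c) (-(r * s))‖ := by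
    have e0 : pt u (r * c) (r * s) = pt u (r * c) (-(r * s) + 1 * (2 * (r * s))) := by ring_nf
    have e1 : pt u (r * c) (-(r * s)) = pt u (r * c) (-(r * s) + 0 * (2 * (r * s))) := by ring_nf
    refine h.iso.seg (convex_ball 0 1) ?_ ?_ ?_
    · rw [mem_ball_zero_iff, e1]
      exact (hpt 0 ⟨le_rfl, zero_le_one⟩).trans_lt hr1
    · rw [mem_ball_zero_iff, e0]
      exact (hpt 1 ⟨zero_le_one, le_rfl⟩).trans_lt hr1
    · intro t ht
      rw [chord_sub, chord_pt, hcap _ ((hpt t ht).trans_lt hrρ) (by rw [inner_pt hu]; exact hlev)]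
      rfl
  have key := h.chord hu rfl hr0.le hr1.le (by linarith) hs0 hcs (q := 1 / c)
    (by field_simp) hiso
  exact num2 hε hε1 rfl hr hs hc0 hcs key

end Pool.Agent.Y501.C0
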