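import Mathlib
import Pool.Agent.Y501.C0.Main
import Pool.Agent.Y501.C0.Defs

/-!
# Every metric on the torus is a `C⁰`-limit of metrics without smooth isometric immersion
-/

set_option autoImplicit false

namespace Pool.Agent.Y501.C0

open Set Filter Topology Metric
open scoped RealInnerProductSpace ContDiff

/-- the representative of a point of the torus in the centred unit square -/
noncomputable def cp (p : ℝ × ℝ) : ℝ × ℝ := (p.1 - round p.1, p.2 - round p.2)

lemma cp_periodic (p : ℝ × ℝ) (m n : ℤ) : cp (p.1 + m, p.2 + n) = cp p := by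
  unfold cp
  simp only [round_add_intCast]
  push_cast
  ring_nf

lemma cp_eq_self {p : ℝ × ℝ} (h1 : |p.1| < 1 / 2) (h2 : |p.2| < 1 / 2) : cp p = p := by
  unfold cp
  have r1 : round p.1 = 0 := by
    rw [round_eq_zero_iff]
    obtain ⟨a, b⟩ := abs_lt.1 h1
    exact ⟨by linarith, by linarith⟩
  have r2 : round p.2 = 0 := by
    rw [round_eq_zero_iff]
    obtain ⟨a, b⟩ := abs_lt.1 h2
    exact ⟨by linarith, by linarith⟩
  rw [r1, r2]
  simp

lemma round_near {x y : ℝ} (h : |x - round x| < 1 / 2) (hy : |y - x| < 1 / 2 - |x - round x|) :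
    round y = round x := by
  have h1 : |y - round x| < 1 / 2 := by
    have : y - round x = (y - x) + (x - round x) := by ring
    rw [this]
    have := abs_add_le (y - x) (x - round x)
    linarith
  have h2 : round (y - round x) = 0 := by
    rw [round_eq_zero_iff]
    obtain ⟨a, b⟩ := abs_lt.1 h1
    exact ⟨by linarith, by linarith⟩
  rw [round_sub_intCast] at h2
  linarith

lemma far_near {x y : ℝ} (h : |x - round x| = 1 / 2) (hy : |y - x| < 1 / 6) :
    1 / 3 < |y - round y| := by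
  by_contra hcon
  push Not at hcon
  -- then x is within 1/2 of the integer round y
  have h1 : |x - round y| < 1 / 2 := by
    have : x - round y = (y - round y) - (y - x) := by ring
    rw [this]
    have := abs_sub (y - round y) (y - x)
    linarith
  have h2 := round_le x (round y)
  rw [h] at h2
  linarith

/-- periodisation of a smooth function supported in the centred square of side `2/3` -/
lemma periodise_smooth {h : ℝ × ℝ → ℝ} (hh : ContDiff ℝ ∞ h)
    (h0 : ∀ p : ℝ × ℝ, 1 / 3 < |p.1| ∨ 1 / 3 < |p.2| → h p = 0) :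
    ContDiff ℝ ∞ (fun p => h (cp p)) := by
  rw [contDiff_iff_contDiffAt]
  intro p
  by_cases hc : |p.1 - round p.1| < 1 / 2 ∧ |p.2 - round p.2| < 1 / 2
  · have hev : (fun q : ℝ × ℝ => h (cp q)) =ᶠ[𝓝 p]
        fun q => h (q - ((round p.1 : ℝ), (round p.2 : ℝ))) := by
      have e1 : ∀ᶠ q : ℝ × ℝ in 𝓝 p, |q.1 - p.1| < 1 / 2 - |p.1 - round p.1| := by
        have : Continuous fun q : ℝ × ℝ => |q.1 - p.1| := by fun_prop
        exact this.continuousAt.eventually_lt continuousAt_const (by simpa using hc.1)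
      have e2 : ∀ᶠ q : ℝ × ℝ in 𝓝 p, |q.2 - p.2| < 1 / 2 - |p.2 - round p.2| := by
        have : Continuous fun q : ℝ × ℝ => |q.2 - p.2| := by fun_prop
        exact this.continuousAt.eventually_lt continuousAt_const (by simpa using hc.2)
      filter_upwards [e1, e2] with q h1 h2
      unfold cp
      rw [round_near hc.1 h1, round_near hc.2 h2]
      rfl
    refine ContDiffAt.congr_of_eventuallyEq ?_ hev
    exact (hh.comp (contDiff_id.sub contDiff_const)).contDiffAt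
  · have hev : (fun q : ℝ × ℝ => h (cp q)) =ᶠ[𝓝 p] fun _ => (0 : ℝ) := by
      have hle1 := abs_sub_round p.1
      have hle2 := abs_sub_round p.2
      rcases lt_or_eq_of_le hle1 with l1 | l1
      · have l2 : |p.2 - round p.2| = 1 / 2 := by
          rcases lt_or_eq_of_le hle2 with l2 | l2
          · exact absurd ⟨l1, l2⟩ hc
          · exact l2
        have e2 : ∀ᶠ q : ℝ × ℝ in 𝓝 p, |q.2 - p.2| < 1 / 6 := by
          have : Continuous fun q : ℝ × ℝ => |q.2 - p.2| := by fun_prop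
          exact this.continuousAt.eventually_lt continuousAt_const (by simp)
        filter_upwards [e2] with q h2
        exact h0 _ (Or.inr (far_near l2 h2))
      · have e1 : ∀ᶠ q : ℝ × ℝ in 𝓝 p, |q.1 - p.1| < 1 / 6 := by
          have : Continuous fun q : ℝ × ℝ => |q.1 - p.1| := by fun_prop
          exact this.continuousAt.eventually_lt continuousAt_const (by simp)
        filter_upwards [e1] with q h1
        exact h0 _ (Or.inl (far_near l1 h1))
    exact contDiffAt_const.congr_of_eventuallyEq hev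

/-- the constant quadratic form -/
def QQ (a b c : ℝ) (v : ℝ × ℝ) : ℝ := a * v.1 ^ 2 + 2 * b * (v.1 * v.2) + c * v.2 ^ 2

/-- the constant bilinear form -/
def QB (a b c : ℝ) (v w : ℝ × ℝ) : ℝ :=
  a * (v.1 * w.1) + b * (v.1 * w.2 + v.2 * w.1) + c * (v.2 * w.2)

lemma QB_self (a b c : ℝ) (v : ℝ × ℝ) : QB a b c v v = QQ a b c v := by
  unfold QB QQ; ring

lemma form_self (g : TorusMetric) (p v : ℝ × ℝ) :
    g.form p v v = QQ (g.E p) (g.F p) (g.G p) v := by
  unfold TorusMetric.form QQ; ring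

lemma QQ_lower {a b c : ℝ} (ha : 0 < a) (hd : 0 < a * c - b ^ 2) (v : ℝ × ℝ) :
    (a * c - b ^ 2) / (a + c) * (v.1 ^ 2 + v.2 ^ 2) ≤ QQ a b c v := by
  have hc : 0 < c := by
    by_contra hcon
    have : a * c ≤ 0 := mul_nonpos_of_nonneg_of_nonpos ha.le (not_lt.1 hcon)
    nlinarith [sq_nonneg b]
  rw [div_mul_eq_mul_div, div_le_iff₀ (by linarith)]
  unfold QQ
  nlinarith [sq_nonneg (a * v.1 + b * v.2), sq_nonneg (b * v.1 + c * v.2)]

/-- outer cut-off: `1` for `s ≤ 4`, `0` for `9 ≤ s` -/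
noncomputable def cutA (s : ℝ) : ℝ := Real.smoothTransition ((9 - s) / 5)

/-- the speed profile: `1` for `s ≤ 1`, `(1 - ε)²` for `(1 + ε²/100)² ≤ s` -/
noncomputable def prof (ε s : ℝ) : ℝ :=
  1 - (1 - (1 - ε) ^ 2) * Real.smoothTransition ((s - 1) / ((1 + ε ^ 2 / 100) ^ 2 - 1))

lemma cutA_smooth : ContDiff ℝ ∞ cutA := by
  unfold cutA
  exact Real.smoothTransition.contDiff.comp (by fun_prop)

lemma prof_smooth (ε : ℝ) : ContDiff ℝ ∞ (prof ε) := by
  unfold prof
  refine contDiff_const.sub (contDiff_const.mul ?_)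
  exact Real.smoothTransition.contDiff.comp
    ((contDiff_id.sub contDiff_const).div_const _)

lemma cutA_one {s : ℝ} (h : s ≤ 4) : cutA s = 1 :=
  Real.smoothTransition.one_of_one_le (by linarith)

lemma cutA_zero {s : ℝ} (h : 9 ≤ s) : cutA s = 0 :=
  Real.smoothTransition.zero_of_nonpos (by linarith)

lemma cutA_nonneg (s : ℝ) : 0 ≤ cutA s := Real.smoothTransition.nonneg _
lemma cutA_le_one (s : ℝ) : cutA s ≤ 1 := Real.smoothTransition.le_one _

lemma prof_one {ε s : ℝ} (hε : 0 < ε) (h : s ≤ 1) : prof ε s = 1 := by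
  unfold prof
  rw [Real.smoothTransition.zero_of_nonpos, mul_zero, sub_zero]
  apply div_nonpos_of_nonpos_of_nonneg (by linarith)
  have : 0 < ε ^ 2 := by positivity
  nlinarith

lemma prof_fast {ε s : ℝ} (hε : 0 < ε) (h : (1 + ε ^ 2 / 100) ^ 2 ≤ s) :
    prof ε s = (1 - ε) ^ 2 := by
  unfold prof
  rw [Real.smoothTransition.one_of_one_le]
  · ring
  · have h2 : 0 < ε ^ 2 := by positivity
    have : 0 < (1 + ε ^ 2 / 100) ^ 2 - 1 := by nlinarith
    rw [one_le_div this]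
    linarith

lemma prof_bounds {ε : ℝ} (hε : 0 < ε) (hε1 : ε < 1) (s : ℝ) :
    (1 - ε) ^ 2 ≤ prof ε s ∧ prof ε s ≤ 1 := by
  unfold prof
  have h1 := Real.smoothTransition.nonneg ((s - 1) / ((1 + ε ^ 2 / 100) ^ 2 - 1))
  have h2 := Real.smoothTransition.le_one ((s - 1) / ((1 + ε ^ 2 / 100) ^ 2 - 1))
  have h3 : 0 ≤ 1 - (1 - ε) ^ 2 := by nlinarith
  constructor
  · nlinarith
  · nlinarith [mul_nonneg h3 h1]

/-- the data of the perturbation: the value of the metric at the origin is `(a, b, c)`; `ρ` is the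
scale, `ε` the speed defect -/
structure Data (g₀ : TorusMetric) where
  ε : ℝ
  ρ : ℝ
  hε : 0 < ε
  hε1 : ε < 1
  hρ : 0 < ρ
  small : ∀ p : ℝ × ℝ, QQ (g₀.E 0) (g₀.F 0) (g₀.G 0) p < 9 * ρ ^ 2 → |p.1| ≤ 1 / 3 ∧ |p.2| ≤ 1 / 3

variable {g₀ : TorusMetric}

namespace Data

variable (d : Data g₀)

/-- normalised squared distance from the origin -/
noncomputable def q (p : ℝ × ℝ) : ℝ := QQ (g₀.E 0) (g₀.F 0) (g₀.G 0) p / d.ρ ^ 2

lemma q_smooth : ContDiff ℝ ∞ d.q := by
  unfold q QQ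
  fun_prop

/-- the first coefficient function -/
noncomputable def c1 (p : ℝ × ℝ) : ℝ := cutA (d.q (cp p))

/-- the factor -/
noncomputable def lam (p : ℝ × ℝ) : ℝ := prof d.ε (d.q (cp p))

lemma far {p : ℝ × ℝ} (hp : 1 / 3 < |p.1| ∨ 1 / 3 < |p.2|) : cutA (d.q p) = 0 := by
  apply cutA_zero
  by_contra hcon
  push Not at hcon
  unfold q at hcon
  rw [div_lt_iff₀ (by have := d.hρ; positivity)] at hcon
  obtain ⟨h1, h2⟩ := d.small p hcon
  rcases hp with h | h <;> linarith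

lemma c1_smooth : ContDiff ℝ ∞ d.c1 := by
  refine periodise_smooth (h := fun p => cutA (d.q p)) (cutA_smooth.comp d.q_smooth) ?_
  intro p hp
  exact d.far hp

lemma c2_smooth : ContDiff ℝ ∞ (fun p => d.c1 p * d.lam p) := by
  refine periodise_smooth (h := fun p => cutA (d.q p) * prof d.ε (d.q p))
    ((cutA_smooth.comp d.q_smooth).mul ((prof_smooth _).comp d.q_smooth)) ?_
  intro p hp
  rw [d.far hp, zero_mul]

lemma c1_periodic (p : ℝ × ℝ) (m n : ℤ) : d.c1 (p.1 + m, p.2 + n) = d.c1 p := by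
  unfold c1
  rw [cp_periodic]

lemma lam_periodic (p : ℝ × ℝ) (m n : ℤ) : d.lam (p.1 + m, p.2 + n) = d.lam p := by
  unfold lam
  rw [cp_periodic]

lemma c1_mem (p : ℝ × ℝ) : 0 ≤ d.c1 p ∧ d.c1 p ≤ 1 := ⟨cutA_nonneg _, cutA_le_one _⟩

lemma lam_mem (p : ℝ × ℝ) : (1 - d.ε) ^ 2 ≤ d.lam p ∧ d.lam p ≤ 1 := prof_bounds d.hε d.hε1 _

lemma lam_pos (p : ℝ × ℝ) : 0 < d.lam p := by
  have h1 := (d.lam_mem p).1
  have h2 := d.hε1
  have : 0 < (1 - d.ε) ^ 2 := by
    have : 0 < 1 - d.ε := by linarith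
    positivity
  linarith

/-- coefficients of the perturbed metric -/
noncomputable def co (X : ℝ × ℝ → ℝ) (p : ℝ × ℝ) : ℝ :=
  (1 - d.c1 p) * X p + d.c1 p * d.lam p * X 0

lemma co_smooth {X : ℝ × ℝ → ℝ} (hX : ContDiff ℝ ∞ X) : ContDiff ℝ ∞ (d.co X) := by
  unfold co
  exact ((contDiff_const.sub d.c1_smooth).mul hX).add (d.c2_smooth.mul contDiff_const)

end Data

lemma det_combination {e f g a b c s t : ℝ} (he : 0 < e) (hd : 0 < e * g - f ^ 2) (ha : 0 < a)
    (hD : 0 < a * c - b ^ 2) (hs : 0 ≤ s) (ht : 0 ≤ t) (hst : 0 < s + t) :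
    0 < s * e + t * a ∧ 0 < (s * e + t * a) * (s * g + t * c) - (s * f + t * b) ^ 2 := by
  have hE : 0 < s * e + t * a := by
    rcases eq_or_lt_of_le hs with h | h
    · have : 0 < t := by linarith
      have := mul_pos this ha
      nlinarith
    · have := mul_pos h he
      have := mul_nonneg ht ha.le
      linarith
  refine ⟨hE, ?_⟩
  have hg : 0 < g := by
    by_contra hcon
    have : e * g ≤ 0 := mul_nonpos_of_nonneg_of_nonpos he.le (not_lt.1 hcon)
    nlinarith [sq_nonneg f]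
  have hc : 0 < c := by
    by_contra hcon
    have : a * c ≤ 0 := mul_nonpos_of_nonneg_of_nonpos ha.le (not_lt.1 hcon)
    nlinarith [sq_nonneg b]
  -- the mixed term
  have hmix : 0 ≤ e * c + a * g - 2 * (f * b) := by
    -- multiply by e * a: e² a c + a² e g - 2 e a f b = e² (ac - b²) + a² (eg - f²) + (e b - a f)²
    have h1 : 0 ≤ (e * a) * (e * c + a * g - 2 * (f * b)) := by
      have : (e * a) * (e * c + a * g - 2 * (f * b))
          = e ^ 2 * (a * c - b ^ 2) + a ^ 2 * (e * g - f ^ 2) + (e * b - a * f) ^ 2 := by ring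
      rw [this]
      positivity
    exact nonneg_of_mul_nonneg_right h1 (mul_pos he ha)
  have hexp : (s * e + t * a) * (s * g + t * c) - (s * f + t * b) ^ 2
      = s ^ 2 * (e * g - f ^ 2) + t ^ 2 * (a * c - b ^ 2) + s * t * (e * c + a * g - 2 * (f * b)) := by
    ring
  rw [hexp]
  have h2 : 0 ≤ s * t * (e * c + a * g - 2 * (f * b)) := mul_nonneg (mul_nonneg hs ht) hmix
  rcases eq_or_lt_of_le hs with h | h
  · have ht' : 0 < t := by linarith
    have : 0 < t ^ 2 * (a * c - b ^ 2) := by positivity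
    have : 0 ≤ s ^ 2 * (e * g - f ^ 2) := by positivity
    linarith
  · have : 0 < s ^ 2 * (e * g - f ^ 2) := by positivity
    have : 0 ≤ t ^ 2 * (a * c - b ^ 2) := by positivity
    linarith

namespace Data

variable (d : Data g₀)

/-- the perturbed metric -/
noncomputable def metric : TorusMetric where
  E := d.co g₀.E
  F := d.co g₀.F
  G := d.co g₀.G
  smooth := ⟨d.co_smooth g₀.smooth.1, d.co_smooth g₀.smooth.2.1, d.co_smooth g₀.smooth.2.2⟩
  periodic := fun p m n => by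
    obtain ⟨h1, h2, h3⟩ := g₀.periodic p m n
    unfold co
    rw [d.c1_periodic, d.lam_periodic, h1, h2, h3]
    exact ⟨rfl, rfl, rfl⟩
  posdef := fun p => by
    obtain ⟨h1, h2⟩ := g₀.posdef p
    obtain ⟨h3, h4⟩ := g₀.posdef 0
    obtain ⟨h5, h6⟩ := d.c1_mem p
    have h7 := d.lam_pos p
    have := det_combination (s := 1 - d.c1 p) (t := d.c1 p * d.lam p) h1 h2 h3 h4 (by linarith)
      (mul_nonneg h5 h7.le) (by
        rcases eq_or_lt_of_le h5 with h | h
        · rw [← h]; norm_num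
        · have := mul_pos h h7
          linarith)
    exact this

lemma metric_form (p v w : ℝ × ℝ) : d.metric.form p v w
    = g₀.form p v w + d.c1 p * (d.lam p * QB (g₀.E 0) (g₀.F 0) (g₀.G 0) v w - g₀.form p v w) := by
  unfold TorusMetric.form metric co QB
  simp only
  ring

/-- the linear isometry from the Euclidean plane to the plane with the form at the origin -/
noncomputable def L (g₀ : TorusMetric) : ℂ →L[ℝ] ℝ × ℝ :=
  ((1 / √(g₀.E 0)) • Complex.reCLM
    + (-(g₀.F 0 / g₀.E 0) * √(g₀.E 0 / (g₀.E 0 * g₀.G 0 - g₀.F 0 ^ 2))) • Complex.imCLM).prod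
    (√(g₀.E 0 / (g₀.E 0 * g₀.G 0 - g₀.F 0 ^ 2)) • Complex.imCLM)

lemma L_QQ (g₀ : TorusMetric) (z : ℂ) :
    QQ (g₀.E 0) (g₀.F 0) (g₀.G 0) (L g₀ z) = ‖z‖ ^ 2 := by
  obtain ⟨ha, hd⟩ := g₀.posdef 0
  obtain ⟨a, ha'⟩ : ∃ a, a = g₀.E 0 := ⟨_, rfl⟩
  obtain ⟨b, hb'⟩ : ∃ b, b = g₀.F 0 := ⟨_, rfl⟩
  obtain ⟨c, hc'⟩ : ∃ c, c = g₀.G 0 := ⟨_, rfl⟩
  have hL1 : (L g₀ z).1 = (1 / √a) * z.re + (-(b / a) * √(a / (a * c - b ^ 2))) * z.im := by
    rw [ha', hb', hc']
    rfl
  have hL2 : (L g₀ z).2 = √(a / (a * c - b ^ 2)) * z.im := by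
    rw [ha', hb', hc']
    rfl
  rw [← ha'] at ha
  rw [← ha', ← hb', ← hc'] at hd
  unfold QQ
  rw [hL1, hL2, ← ha', ← hb', ← hc', Complex.sq_norm, Complex.normSq_apply]
  obtain ⟨α, hα⟩ : ∃ α, α = 1 / √a := ⟨_, rfl⟩
  obtain ⟨γ, hγ⟩ : ∃ γ, γ = √(a / (a * c - b ^ 2)) := ⟨_, rfl⟩
  have hα2 : a * α ^ 2 = 1 := by
    rw [hα, div_pow, Real.sq_sqrt ha.le]
    field_simp
  have hγ2 : γ ^ 2 * (a * c - b ^ 2) = a := by
    rw [hγ, Real.sq_sqrt (by positivity)]
    field_simp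
  rw [← hα, ← hγ]
  have e : a * (α * z.re + -(b / a) * γ * z.im) ^ 2
      + 2 * b * ((α * z.re + -(b / a) * γ * z.im) * (γ * z.im)) + c * (γ * z.im) ^ 2
      = (a * α ^ 2) * z.re ^ 2 + (γ ^ 2 * (a * c - b ^ 2) / a) * z.im ^ 2 := by
    field_simp
    ring
  rw [e, hα2, hγ2, div_self ha.ne']
  ring

/-- **The perturbed metric has no smooth isometric immersion.** -/
theorem no_immersion : ¬ ∃ f, IsIsometricImmersion d.metric f := by
  rintro ⟨f, hf⟩
  have hρ := d.hρ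
  -- the rescaled map
  obtain ⟨A, hA⟩ : ∃ A : ℂ →L[ℝ] ℝ × ℝ, A = d.ρ • L g₀ := ⟨_, rfl⟩
  have hAz : ∀ z : ℂ, A z = d.ρ • L g₀ z := fun z => by rw [hA]; rfl
  have hQA : ∀ z : ℂ, QQ (g₀.E 0) (g₀.F 0) (g₀.G 0) (A z) = d.ρ ^ 2 * ‖z‖ ^ 2 := by
    intro z
    rw [hAz, ← L_QQ g₀ z]
    unfold QQ
    simp only [Prod.smul_fst, Prod.smul_snd, smul_eq_mul]
    ring
  have hqA : ∀ z : ℂ, d.q (A z) = ‖z‖ ^ 2 := by
    intro z
    unfold q
    rw [hQA]
    field_simp
  have hcpA : ∀ z : ℂ, ‖z‖ < 2 → cp (A z) = A z := by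
    intro z hz
    have h1 : QQ (g₀.E 0) (g₀.F 0) (g₀.G 0) (A z) < 9 * d.ρ ^ 2 := by
      rw [hQA]
      have : ‖z‖ ^ 2 < 4 := by nlinarith [norm_nonneg z]
      have h2 : 0 < d.ρ ^ 2 := by positivity
      nlinarith
    obtain ⟨h2, h3⟩ := d.small _ h1
    exact cp_eq_self (by linarith) (by linarith)
  have hc1 : ∀ z : ℂ, ‖z‖ < 2 → d.c1 (A z) = 1 := by
    intro z hz
    unfold c1
    rw [hcpA z hz, hqA]
    exact cutA_one (by nlinarith [norm_nonneg z])
  have hlam : ∀ z : ℂ, ‖z‖ < 2 → d.lam (A z) = prof d.ε (‖z‖ ^ 2) := by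
    intro z hz
    unfold lam
    rw [hcpA z hz, hqA]
  have hder : ∀ z v : ℂ, fderiv ℝ (fun z => d.ρ⁻¹ • f (A z)) z v
      = fderiv ℝ f (A z) (L g₀ v) := by
    intro z v
    have h1 : HasFDerivAt f (fderiv ℝ f (A z)) (A z) :=
      ((hf.smooth.differentiable (by simp)) _).hasFDerivAt
    have h2 : HasFDerivAt (fun z => f (A z)) ((fderiv ℝ f (A z)).comp A) z :=
      h1.comp z A.hasFDerivAt
    have h3 : HasFDerivAt (fun z => d.ρ⁻¹ • f (A z)) (d.ρ⁻¹ • (fderiv ℝ f (A z)).comp A) z :=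
      h2.const_smul d.ρ⁻¹
    rw [h3.fderiv]
    show d.ρ⁻¹ • (fderiv ℝ f (A z)) (A v) = _
    rw [hAz v, map_smul, smul_smul, inv_mul_cancel₀ hρ.ne', one_smul]
  have hnorm : ∀ z v : ℂ, ‖z‖ < 2 → ‖fderiv ℝ (fun z => d.ρ⁻¹ • f (A z)) z v‖ ^ 2
      = prof d.ε (‖z‖ ^ 2) * ‖v‖ ^ 2 := by
    intro z v hz
    rw [hder, ← real_inner_self_eq_norm_sq, hf.isometric, d.metric_form, hc1 z hz, hlam z hz,
      QB_self, L_QQ]
    ring
  refine no_med (ε := d.ε) (f := fun z => d.ρ⁻¹ • f (A z)) ⟨d.hε, d.hε1, ⟨?_, isOpen_ball, ?_⟩, ?_, ?_⟩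
  · exact (hf.smooth.comp A.contDiff).const_smul _
  · intro z hz v
    rw [mem_ball_zero_iff] at hz
    have h1 := hnorm z v (by linarith)
    rw [prof_one d.hε (by nlinarith [norm_nonneg z]), one_mul] at h1
    exact (pow_left_inj₀ (norm_nonneg _) (norm_nonneg _) two_ne_zero).1 h1
  · intro z hz v
    have h1 := hnorm z v hz
    have h2 := (prof_bounds d.hε d.hε1 (‖z‖ ^ 2)).2
    rw [one_mul]
    refine le_of_sq_le_sq' ?_ (norm_nonneg _)
    rw [h1]
    nlinarith [sq_nonneg ‖v‖]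
  · intro z hz1 hz v
    have h1 := hnorm z v hz
    have hx : 0 < d.ε ^ 2 := by have := d.hε; positivity
    rw [prof_fast d.hε (pow_le_pow_left₀ (by linarith) hz1 2)] at h1
    refine le_of_sq_le_sq' ?_ (mul_nonneg (by linarith [d.hε1]) (norm_nonneg _))
    rw [h1]
    apply le_of_eq
    ring

end Data

end Pool.Agent.Y501.C0
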