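import Mathlib
import Pool.Agent.Y501.C0.Torus

/-!
# The perturbation can be made arbitrarily `C⁰`-small
-/

set_option autoImplicit false

namespace Pool.Agent.Y501.C0

open Set Filter Topology Metric
open scoped RealInnerProductSpace ContDiff

/-- a bilinear form with small coefficients is small -/
lemma bil_bound {x y z θ v1 v2 w1 w2 : ℝ} (hx : |x| ≤ θ) (hy : |y| ≤ θ) (hz : |z| ≤ θ) :
    |x * (v1 * w1) + y * (v1 * w2 + v2 * w1) + z * (v2 * w2)|
      ≤ θ * ((|v1| + |v2|) * (|w1| + |w2|)) := by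
  have h1 : |x * (v1 * w1)| ≤ θ * (|v1| * |w1|) := by
    rw [abs_mul, abs_mul]
    exact mul_le_mul_of_nonneg_right hx (by positivity)
  have h2 : |y * (v1 * w2)| ≤ θ * (|v1| * |w2|) := by
    rw [abs_mul, abs_mul]
    exact mul_le_mul_of_nonneg_right hy (by positivity)
  have h3 : |y * (v2 * w1)| ≤ θ * (|v2| * |w1|) := by
    rw [abs_mul, abs_mul]
    exact mul_le_mul_of_nonneg_right hy (by positivity)
  have h4 : |z * (v2 * w2)| ≤ θ * (|v2| * |w2|) := by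
    rw [abs_mul, abs_mul]
    exact mul_le_mul_of_nonneg_right hz (by positivity)
  obtain ⟨a1, b1⟩ := abs_le.1 h1
  obtain ⟨a2, b2⟩ := abs_le.1 h2
  obtain ⟨a3, b3⟩ := abs_le.1 h3
  obtain ⟨a4, b4⟩ := abs_le.1 h4
  have e1 : θ * ((|v1| + |v2|) * (|w1| + |w2|)) = θ * (|v1| * |w1|) + θ * (|v1| * |w2|)
      + θ * (|v2| * |w1|) + θ * (|v2| * |w2|) := by ring
  have e2 : x * (v1 * w1) + y * (v1 * w2 + v2 * w1) + z * (v2 * w2)
      = x * (v1 * w1) + y * (v1 * w2) + y * (v2 * w1) + z * (v2 * w2) := by ring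
  rw [e1, e2, abs_le]
  constructor <;> linarith

lemma abs_le_of_sq_lt {x y s : ℝ} (hs : 0 < s) (h : x ^ 2 + y ^ 2 < s ^ 2) : |x| < s ∧ |y| < s :=
  ⟨abs_lt_of_sq_lt_sq (by nlinarith [sq_nonneg y]) hs.le,
    abs_lt_of_sq_lt_sq (by nlinarith [sq_nonneg x]) hs.le⟩

lemma unit_bound {m κ S x Q v1 v2 : ℝ} (hm : 0 < m) (hκ : κ ≤ m / 8) (hlow : m * (v1 ^ 2 + v2 ^ 2) ≤ Q)
    (hS : S = |v1| + |v2|) (hx : -(κ * (S * S)) ≤ x - Q) (hx1 : x = 1) : S ^ 2 ≤ 4 / m := by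
  have h5 : S ^ 2 ≤ 2 * (v1 ^ 2 + v2 ^ 2) := by
    rw [hS]
    have := sq_nonneg (|v1| - |v2|)
    have h6 := sq_abs v1
    have h7 := sq_abs v2
    nlinarith
  have h8 : κ * (S * S) ≤ m / 8 * S ^ 2 := by
    rw [← sq]
    exact mul_le_mul_of_nonneg_right hκ (by positivity)
  have h9 : m * S ^ 2 ≤ m * (2 * (v1 ^ 2 + v2 ^ 2)) := mul_le_mul_of_nonneg_left h5 hm.le
  have h10 : 0 ≤ m * S ^ 2 := by positivity
  rw [le_div_iff₀ hm]
  linarith

lemma prod_bound {S T k : ℝ} (h1 : S ^ 2 ≤ k) (h2 : T ^ 2 ≤ k) : S * T ≤ k := by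
  have := sq_nonneg (S - T)
  have h3 : (S - T) ^ 2 = S ^ 2 - 2 * (S * T) + T ^ 2 := by ring
  linarith

lemma sum_bound {x y z k ε : ℝ} (hk : k = ε / 8) (h1 : x ^ 2 ≤ k ^ 2) (h2 : y ^ 2 ≤ k ^ 2)
    (h3 : z ^ 2 ≤ k ^ 2) : x ^ 2 + 2 * y ^ 2 + z ^ 2 ≤ (ε / 4) ^ 2 := by
  have h4 : (ε / 4) ^ 2 = 4 * k ^ 2 := by rw [hk]; ring
  linarith

theorem exists_data (g₀ : TorusMetric) (ε : ℝ) (hε : 0 < ε) :
    ∃ d : Data g₀, C0Near g₀ d.metric ε := by
  obtain ⟨ha, hd⟩ := g₀.posdef 0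
  obtain ⟨a, ha'⟩ : ∃ a, a = g₀.E 0 := ⟨_, rfl⟩
  obtain ⟨b, hb'⟩ : ∃ b, b = g₀.F 0 := ⟨_, rfl⟩
  obtain ⟨c, hc'⟩ : ∃ c, c = g₀.G 0 := ⟨_, rfl⟩
  rw [← ha'] at ha
  rw [← ha', ← hb', ← hc'] at hd
  have hc : 0 < c := by
    by_contra hcon
    have : a * c ≤ 0 := mul_nonpos_of_nonneg_of_nonpos ha.le (not_lt.1 hcon)
    nlinarith [sq_nonneg b]
  obtain ⟨m, hm'⟩ : ∃ m, m = (a * c - b ^ 2) / (a + c) := ⟨_, rfl⟩
  have hm : 0 < m := by rw [hm']; positivity
  obtain ⟨M, hM'⟩ : ∃ M, M = a + |b| + c := ⟨_, rfl⟩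
  have hM : 0 < M := by rw [hM']; positivity
  have haM : |a| ≤ M := by rw [abs_of_pos ha, hM']; have := abs_nonneg b; linarith
  have hbM : |b| ≤ M := by rw [hM']; linarith
  have hcM : |c| ≤ M := by rw [abs_of_pos hc, hM']; have := abs_nonneg b; linarith
  have hlow : ∀ v : ℝ × ℝ, m * (v.1 ^ 2 + v.2 ^ 2) ≤ QQ a b c v := by
    intro v
    rw [hm']
    exact QQ_lower ha hd v
  obtain ⟨κ, hκ'⟩ : ∃ κ, κ = min (m / 8) (ε * m / 64) := ⟨_, rfl⟩
  have hκ : 0 < κ := by rw [hκ']; positivity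
  have hκ1 : κ ≤ m / 8 := by rw [hκ']; exact min_le_left _ _
  have hκ2 : κ ≤ ε * m / 64 := by rw [hκ']; exact min_le_right _ _
  obtain ⟨η, hη'⟩ : ∃ η, η = min (1 / 2) (ε * m / (128 * M)) := ⟨_, rfl⟩
  have hη : 0 < η := by rw [hη']; positivity
  have hη1 : η ≤ 1 / 2 := by rw [hη']; exact min_le_left _ _
  have hη2 : 2 * η * M ≤ ε * m / 64 := by
    have : η ≤ ε * m / (128 * M) := by rw [hη']; exact min_le_right _ _
    rw [le_div_iff₀ (by positivity)] at this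
    linarith
  -- continuity
  have hcE : ∃ r > 0, ∀ p : ℝ × ℝ, |p.1| < r → |p.2| < r →
      |g₀.E p - a| ≤ κ ∧ |g₀.F p - b| ≤ κ ∧ |g₀.G p - c| ≤ κ := by
    have hE := g₀.smooth.1.continuous.continuousAt (x := (0 : ℝ × ℝ))
    have hF := g₀.smooth.2.1.continuous.continuousAt (x := (0 : ℝ × ℝ))
    have hG := g₀.smooth.2.2.continuous.continuousAt (x := (0 : ℝ × ℝ))
    obtain ⟨r1, hr1, k1⟩ := Metric.continuousAt_iff.1 hE κ hκ
    obtain ⟨r2, hr2, k2⟩ := Metric.continuousAt_iff.1 hF κ hκ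
    obtain ⟨r3, hr3, k3⟩ := Metric.continuousAt_iff.1 hG κ hκ
    refine ⟨min r1 (min r2 r3), by positivity, ?_⟩
    intro p h1 h2
    have hdist : dist p 0 < min r1 (min r2 r3) := by
      rw [dist_zero_right, Prod.norm_def]
      exact max_lt h1 h2
    have d1 := k1 (lt_of_lt_of_le hdist (min_le_left _ _))
    have d2 := k2 (lt_of_lt_of_le hdist ((min_le_right _ _).trans (min_le_left _ _)))
    have d3 := k3 (lt_of_lt_of_le hdist ((min_le_right _ _).trans (min_le_right _ _)))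
    rw [Real.dist_eq] at d1 d2 d3
    rw [ha', hb', hc']
    exact ⟨d1.le, d2.le, d3.le⟩
  obtain ⟨r, hr, hcont⟩ := hcE
  obtain ⟨s, hs'⟩ : ∃ s, s = min r (1 / 3) := ⟨_, rfl⟩
  have hs : 0 < s := by rw [hs']; positivity
  have hs1 : s ≤ r := by rw [hs']; exact min_le_left _ _
  have hs2 : s ≤ 1 / 3 := by rw [hs']; exact min_le_right _ _
  have hρs : 9 * (s * √m / 3) ^ 2 = m * s ^ 2 := by
    have := Real.sq_sqrt hm.le
    calc 9 * (s * √m / 3) ^ 2 = s ^ 2 * (√m) ^ 2 := by ring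
      _ = m * s ^ 2 := by rw [this]; ring
  have hsm : ∀ p : ℝ × ℝ, QQ a b c p < 9 * (s * √m / 3) ^ 2 → |p.1| < s ∧ |p.2| < s := by
    intro p hp
    rw [hρs] at hp
    have h1 := hlow p
    have h2 : m * (p.1 ^ 2 + p.2 ^ 2) < m * s ^ 2 := by linarith
    exact abs_le_of_sq_lt hs (lt_of_mul_lt_mul_left h2 hm.le)
  let d : Data g₀ :=
    { ε := η
      ρ := s * √m / 3
      hε := hη
      hε1 := by linarith
      hρ := by positivity
      small := by
        intro p hp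
        rw [← ha', ← hb', ← hc'] at hp
        obtain ⟨h1, h2⟩ := hsm p hp
        exact ⟨by linarith, by linarith⟩ }
  refine ⟨d, ε / 4, by linarith, ?_⟩
  intro p v w hv hw hvw
  -- the coefficients of the difference
  have hdiff : ∀ x y : ℝ × ℝ, d.metric.form p x y - g₀.form p x y
      = d.c1 p * ((d.lam p * a - g₀.E p) * (x.1 * y.1)
        + (d.lam p * b - g₀.F p) * (x.1 * y.2 + x.2 * y.1)
        + (d.lam p * c - g₀.G p) * (x.2 * y.2)) := by
    intro x y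
    rw [d.metric_form, ← ha', ← hb', ← hc']
    unfold TorusMetric.form QB
    ring
  by_cases hc0 : d.c1 p = 0
  · rw [hdiff, hdiff, hdiff, hc0]
    simp only [zero_mul, ne_eq, OfNat.ofNat_ne_zero, not_false_eq_true, zero_pow, mul_zero,
      add_zero, Real.sqrt_zero]
    positivity
  · -- the point is close to the lattice
    have hq : d.q (cp p) < 9 := by
      by_contra hcon
      exact hc0 (cutA_zero (not_lt.1 hcon))
    have hQ : QQ a b c (cp p) < 9 * (s * √m / 3) ^ 2 := by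
      have h1 : d.q (cp p) = QQ a b c (cp p) / (s * √m / 3) ^ 2 := by
        unfold Data.q
        rw [← ha', ← hb', ← hc']
      rw [h1, div_lt_iff₀ (by positivity)] at hq
      exact hq
    obtain ⟨k1, k2⟩ := hsm _ hQ
    obtain ⟨e1, e2, e3⟩ := hcont (cp p) (by linarith) (by linarith)
    have hper := g₀.periodic p (-round p.1) (-round p.2)
    have hcpp : (p.1 + ((-round p.1 : ℤ) : ℝ), p.2 + ((-round p.2 : ℤ) : ℝ)) = cp p := by
      unfold cp
      push_cast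
      rfl
    rw [hcpp] at hper
    rw [hper.1] at e1
    rw [hper.2.1] at e2
    rw [hper.2.2] at e3
    have hl := d.lam_mem p
    have hdη : d.ε = η := rfl
    rw [hdη] at hl
    have hl1 : |d.lam p - 1| ≤ 2 * η := by
      have h1 := sq_nonneg η
      have h2 : (1 - η) ^ 2 = 1 - 2 * η + η ^ 2 := by ring
      obtain ⟨h3, h4⟩ := hl
      rw [h2] at h3
      rw [abs_le]
      constructor <;> linarith
    obtain ⟨θ, hθ⟩ : ∃ θ, θ = 2 * η * M + κ := ⟨_, rfl⟩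
    have hθ0 : 0 < θ := by rw [hθ]; positivity
    have hcoef : ∀ {u x : ℝ}, |u| ≤ M → |x - u| ≤ κ → |d.lam p * u - x| ≤ θ := by
      intro u x hu hx
      have h1 : d.lam p * u - x = (d.lam p - 1) * u - (x - u) := by ring
      rw [h1, hθ]
      have h2 := abs_sub ((d.lam p - 1) * u) (x - u)
      have h3 : |(d.lam p - 1) * u| ≤ 2 * η * M := by
        rw [abs_mul]
        exact mul_le_mul hl1 hu (abs_nonneg _) (by positivity)
      linarith
    have c1' := hcoef haM e1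
    have c2' := hcoef hbM e2
    have c3' := hcoef hcM e3
    have hunit : ∀ v : ℝ × ℝ, g₀.form p v v = 1 → (|v.1| + |v.2|) ^ 2 ≤ 4 / m := by
      intro v hv
      have h1 := hlow v
      have h2 := bil_bound (v1 := v.1) (v2 := v.2) (w1 := v.1) (w2 := v.2) e1 e2 e3
      have h3 : g₀.form p v v - QQ a b c v = (g₀.E p - a) * (v.1 * v.1)
          + (g₀.F p - b) * (v.1 * v.2 + v.2 * v.1) + (g₀.G p - c) * (v.2 * v.2) := by
        unfold TorusMetric.form QQ
        ring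
      rw [← h3, hv] at h2
      exact unit_bound hm hκ1 h1 rfl (abs_le.1 h2).1 rfl
    have hbd : ∀ x y : ℝ × ℝ, g₀.form p x x = 1 → g₀.form p y y = 1 →
        |d.metric.form p x y - g₀.form p x y| ≤ ε / 8 := by
      intro x y hx hy
      rw [hdiff, abs_mul]
      have h1 := bil_bound (v1 := x.1) (v2 := x.2) (w1 := y.1) (w2 := y.2) c1' c2' c3'
      have h2 := hunit x hx
      have h3 := hunit y hy
      have h4 : (|x.1| + |x.2|) * (|y.1| + |y.2|) ≤ 4 / m := prod_bound h2 h3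
      have h5 : θ * ((|x.1| + |x.2|) * (|y.1| + |y.2|)) ≤ θ * (4 / m) :=
        mul_le_mul_of_nonneg_left h4 hθ0.le
      have h6 : θ * (4 / m) ≤ ε / 8 := by
        rw [mul_div_assoc', div_le_iff₀ hm, hθ]
        linarith
      have h7 : |d.c1 p| ≤ 1 := by
        rw [abs_of_nonneg (d.c1_mem p).1]
        exact (d.c1_mem p).2
      calc |d.c1 p| * _ ≤ 1 * _ := mul_le_mul_of_nonneg_right h7 (abs_nonneg _)
        _ ≤ ε / 8 := by rw [one_mul]; linarith
    have b1 := hbd v v hv hv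
    have b2 := hbd v w hv hw
    have b3 := hbd w w hw hw
    rw [Real.sqrt_le_left (by positivity)]
    have s1 := sq_le_sq' (abs_le.1 b1).1 (abs_le.1 b1).2
    have s2 := sq_le_sq' (abs_le.1 b2).1 (abs_le.1 b2).2
    have s3 := sq_le_sq' (abs_le.1 b3).1 (abs_le.1 b3).2
    exact sum_bound rfl s1 s2 s3

/-- For every smooth metric on the torus there are arbitrarily `C⁰`-close smooth metrics without a
smooth isometric immersion into Euclidean `3`-space. -/
theorem no_stability (g₀ : TorusMetric) (ε : ℝ) (hε : 0 < ε) :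
    ∃ g : TorusMetric, C0Near g₀ g ε ∧ ¬ ∃ f, IsIsometricImmersion g f := by
  obtain ⟨d, hd⟩ := exists_data g₀ ε hε
  exact ⟨d.metric, hd, d.no_immersion⟩

end Pool.Agent.Y501.C0
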